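import Pool.Agent.Lib.MP_305fdd_al.F8.Tower

/-!
# MP_305fdd_al, all lattices (project NC): strong rigidity and finite extensions

`CjB Φ φ`: the natural bijection `Φ : NatBij G Λ` is, in every finite quotient, given by the isomorphism `φ : G ≃* Λ` up to an inner automorphism. `SRig G`: this is true for all `Λ`, `Φ` (for some `φ`).
`LInn G`: the automorphisms of `G` which are inner in all finite quotients are inner.
-/

set_option autoImplicit false

namespace Pool.Agent.F8.NC

open Pool.Agent.MP_305fdd_al Pool.Agent.Lib.MP_305fdd_al Pool.Agent.F8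

/-- `Φ` is given by `φ`, up to inner automorphisms. -/
def CjB {G Λ : Type} [Group G] [Group Λ] (Φ : NatBij G Λ) (φ : G ≃* Λ) : Prop :=
  ∀ (Q : Type) [Group Q] [Finite Q] (f : G →* Q), ∃ q ∈ f.range, ∀ x,
    Φ.toFun Q f (φ x) = q * f x * q⁻¹

/-- strong rigidity -/
def SRig (G : Type) [Group G] : Prop := ∀ (Λ : Type) [Group Λ] [Group.FG Λ],
  Group.ResiduallyFinite Λ → ∀ Φ : NatBij G Λ, ∃ φ : G ≃* Λ, CjB Φ φ

/-- Automorphisms which are inner in all finite quotients are inner. -/
def LInn (G : Type) [Group G] : Prop := ∀ s : MulAut G,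
  (∀ (Q : Type) [Group Q] [Finite Q] (f : G →* Q), ∃ q ∈ f.range, ∀ x,
    f (s x) = q * f x * q⁻¹) → ∃ g, ∀ x, s x = g * x * g⁻¹

/-- the conjugation with `x` on a normal subgroup -/
def cjN {G : Type} [Group G] (N : Subgroup G) [N.Normal] (x : G) : MulAut N where
  toFun n := ⟨x * n * x⁻¹, Subgroup.Normal.conj_mem ‹N.Normal› n n.2 x⟩
  invFun n := ⟨x⁻¹ * n * x, by
    have := Subgroup.Normal.conj_mem ‹N.Normal› n n.2 x⁻¹
    rwa [inv_inv] at this⟩
  left_inv n := Subtype.ext (by simp [mul_assoc])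
  right_inv n := Subtype.ext (by simp [mul_assoc])
  map_mul' n m := Subtype.ext (by simp [mul_assoc])

theorem cjN_val {G : Type} [Group G] (N : Subgroup G) [N.Normal] (x : G) (n : N) :
    (cjN N x n : G) = x * n * x⁻¹ := rfl

theorem cjN_mul {G : Type} [Group G] (N : Subgroup G) [N.Normal] (x y : G) (n : N) :
    cjN N (x * y) n = cjN N x (cjN N y n) := by
  apply Subtype.ext
  simp only [cjN_val]
  group

end Pool.Agent.F8.NC
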