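import Pool.Agent.Lib.MP_305fdd_al.F8.CG.StmC

/-!
# MP_305fdd_al, all lattices (project NC): the two main statements

`D` is a subgroup of finite index of `Γ(M₀) ≤ SL₂(ℤ[w])`, `h N : D → SL₂(ℤ[w]) / N` (`N` a normal subgroup of finite index) a compatible family which lifts, up to the conjugation with matrices over `ℤ[w] / m`, the inclusion (`Lft`). `SRF`: then `h` is the
conjugation with an element of the profinite completion, composed with the conjugation with a matrix in `GL₂(ℤ[w])`. `U2D`: automorphisms of `D` which are inner in the quotients `SL₂(ℤ[w]) / N` are inner.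
-/

set_option autoImplicit false

namespace Pool.Agent.F8.NC

open Pool.Agent.F8.BG Pool.Agent.MP_305fdd_al Pool.Agent.Lib.MP_305fdd_al Pool.Agent.F8
  Pool.Agent.F8.CG
open scoped QuadraticAlgebra

noncomputable section

variable {a b : ℤ}

/-- the conjugation with the invertible matrix `A`, `A A' = 1` -/
def cjA (A A' : Matrix (Fin 2) (Fin 2) (Qf a b ℤ)) (h : A * A' = 1) : GQ a b ≃* GQ a b where
  toFun x := ⟨A * x.val * A', by
    have h1 : A.det * A'.det = 1 := by rw [← Matrix.det_mul, h, Matrix.det_one]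
    rw [Matrix.det_mul, Matrix.det_mul, x.2, mul_one, h1]⟩
  invFun x := ⟨A' * x.val * A, by
    have h1 : A.det * A'.det = 1 := by rw [← Matrix.det_mul, h, Matrix.det_one]
    rw [Matrix.det_mul, Matrix.det_mul, x.2, mul_one, mul_comm, h1]⟩
  left_inv x := by
    have h' : A' * A = 1 := mul_eq_one_comm.1 h
    apply Subtype.ext
    show A' * (A * x.val * A') * A = x.val
    calc A' * (A * x.val * A') * A = (A' * A) * x.val * (A' * A) := by
          simp only [Matrix.mul_assoc]
      _ = x.val := by rw [h', Matrix.one_mul, Matrix.mul_one]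
  right_inv x := by
    apply Subtype.ext
    show A * (A' * x.val * A) * A' = x.val
    calc A * (A' * x.val * A) * A' = (A * A') * x.val * (A * A') := by
          simp only [Matrix.mul_assoc]
      _ = x.val := by rw [h, Matrix.one_mul, Matrix.mul_one]
  map_mul' x y := by
    have h' : A' * A = 1 := mul_eq_one_comm.1 h
    apply Subtype.ext
    show A * (x.val * y.val) * A' = (A * x.val * A') * (A * y.val * A')
    calc A * (x.val * y.val) * A' = A * x.val * 1 * y.val * A' := by
          simp only [Matrix.mul_assoc, Matrix.one_mul]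
      _ = _ := by rw [← h']; simp only [Matrix.mul_assoc]

theorem cjA_val (A A' : Matrix (Fin 2) (Fin 2) (Qf a b ℤ)) (h : A * A' = 1) (x : GQ a b) :
    (cjA A A' h x).val = A * x.val * A' := rfl

/-- a lift of the inclusion of `D` to the finite quotients of `SL₂(ℤ[w])` -/
structure Lft (D : Subgroup (GQ a b))
    (h : ∀ (N : Subgroup (GQ a b)) [N.Normal] [N.FiniteIndex], D →* GQ a b ⧸ N) : Prop where
  /-- compatible -/
  cmp : ∀ (N N' : Subgroup (GQ a b)) [N.Normal] [N.FiniteIndex] [N'.Normal] [N'.FiniteIndex]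
    (hle : N ≤ N'), ∀ x, QuotientGroup.map N N' (MonoidHom.id _) hle (h N x) = h N' x
  /-- the congruence quotients -/
  cg : ∀ (m : ℕ) [NeZero m], ∃ C E : Matrix (Fin 2) (Fin 2) (Qf a b (ZMod m)), C * E = 1 ∧
    E * C = 1 ∧ ∀ (N : Subgroup (GQ a b)) [N.Normal] [N.FiniteIndex] (hN : N ≤ Gam a b m),
    ∀ x : D, (QuotientGroup.lift N (rdq a b m) hN (h N x)).val = C * (rdq a b m x).val * E

/-- [NC] MAIN RESULT on lifts -/
def SRF (a b : ℤ) (M₀ : ℕ) : Prop := ∀ D : Subgroup (GQ a b), D ≤ Gam a b M₀ → D.FiniteIndex →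
  ∀ h : ∀ (N : Subgroup (GQ a b)) [N.Normal] [N.FiniteIndex], D →* GQ a b ⧸ N, Lft D h →
  ∃ (A A' : Matrix (Fin 2) (Fin 2) (Qf a b ℤ)) (hA : A * A' = 1),
  ∀ (N : Subgroup (GQ a b)) [N.Normal] [N.FiniteIndex], ∃ g : GQ a b, ∀ x : D,
  h N x = QuotientGroup.mk' N (g * cjA A A' hA x * g⁻¹)

/-- [NC] MAIN RESULT on automorphisms -/
def U2D (a b : ℤ) (M₀ : ℕ) : Prop := ∀ D : Subgroup (GQ a b), D ≤ Gam a b M₀ → D.FiniteIndex →
  ∀ s : D ≃* D, (∀ (N : Subgroup (GQ a b)) [N.Normal] [N.FiniteIndex], ∃ d : D, ∀ x : D,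
    QuotientGroup.mk' N (s x : GQ a b) = QuotientGroup.mk' N (d * x * (d : GQ a b)⁻¹)) →
  ∃ d : D, ∀ x : D, s x = d * x * d⁻¹

end

end Pool.Agent.F8.NC
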