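import Pool.Agent.Lib.MP_305fdd_al.F8.NC.Stm0
import Pool.Agent.Lib.MP_305fdd_al.F8.BG.P_con

/-!
# MP_305fdd_al, project NC, piece N0ccl: the congruence closure is open
-/

set_option autoImplicit false

namespace Pool.Agent.F8.NC

open Pool.Agent.F8.BG Pool.Agent.MP_305fdd_al Pool.Agent.Lib.MP_305fdd_al Pool.Agent.F8
  Pool.Agent.F8.CG
open scoped QuadraticAlgebra

noncomputable section

private theorem N0ccl_eU_mul {a b : ℤ} (s t : Qf a b ℤ) :
    (eU s * eU t : GQ a b) = eU (s + t) := by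
  unfold eU
  rw [AB.mx_mul]
  apply AB.mx_congr <;> ring

private theorem N0ccl_eU_pow {a b : ℤ} (s : Qf a b ℤ) (n : ℕ) :
    (eU s ^ n : GQ a b) = eU ((n : Qf a b ℤ) * s) := by
  induction n with
  | zero =>
    rw [pow_zero]
    unfold eU
    rw [AB.mx_one]
    apply AB.mx_congr <;> simp
  | succ n ih =>
    rw [pow_succ, ih, N0ccl_eU_mul]
    congr 1
    push_cast
    ring

private theorem N0ccl_dvd {a b : ℤ} {N : ℕ} {z : Qf a b ℤ} (h1 : (N : ℤ) ∣ z.re)
    (h2 : (N : ℤ) ∣ z.im) : z ∈ Ideal.span {(N : Qf a b ℤ)} := by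
  obtain ⟨x, hx⟩ := h1
  obtain ⟨y, hy⟩ := h2
  rw [Ideal.mem_span_singleton]
  refine ⟨⟨x, y⟩, ?_⟩
  apply QuadraticAlgebra.ext
  · rw [hx]; simp
  · rw [hy]; simp

private theorem N0ccl_ker {a b : ℤ} {n m : ℕ} {x : GQ a b} (h : rdq a b (m * n) x = 1) :
    rdq a b m x = 1 := con_red (Nat.dvd_mul_right m n) h

/-- the congruence closure of a subgroup of finite index is open -/
theorem p_N0ccl (hgn : X_gnI) : N0_ccl := by
  intro a b hab D hD
  obtain ⟨N, hN⟩ : ∃ N, N = D.index.factorial := ⟨_, rfl⟩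
  have hN0 : N ≠ 0 := by rw [hN]; exact Nat.factorial_ne_zero _
  have hpow : ∀ x : GQ a b, x ^ N ∈ D := by
    intro x
    refine Subgroup.pow_mem_of_index_ne_zero_of_dvd hD.index_ne_zero x fun m hm hm' => ?_
    rw [hN]; exact Nat.dvd_factorial hm hm'
  refine ⟨N, hN0, ?_⟩
  intro m hm x hx
  have hx1 : rdq a b N x = 1 := hx
  have e00 := con_ent hx1 0 0
  have e01 := con_ent hx1 0 1
  have e10 := con_ent hx1 1 0
  have e11 := con_ent hx1 1 1
  have hI : InI (Ideal.span {(N : Qf a b ℤ)}) x := by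
    refine ⟨N0ccl_dvd ?_ ?_, N0ccl_dvd ?_ ?_, N0ccl_dvd ?_ ?_, N0ccl_dvd ?_ ?_⟩
    · simpa using e00.1
    · simpa using e00.2
    · simpa using e01.1
    · simpa using e01.2
    · simpa using e10.1
    · simpa using e10.2
    · simpa using e11.1
    · simpa using e11.2
  have hmN : ((m * N : ℕ) : Qf a b ℤ) ∈ Ideal.span {(N : Qf a b ℤ)} := by
    rw [Ideal.mem_span_singleton]
    exact ⟨(m : Qf a b ℤ), by push_cast; ring⟩
  have hcl := hgn a b _ (m * N) (Nat.mul_ne_zero hm hN0) hmN x hI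
  -- the subgroup of the elements congruent to an element of `D`
  have hsub : ∀ z : GQ a b, z ∈ (D.map (rdq a b m)).comap (rdq a b m) ↔
      ∃ y ∈ D, rdq a b m y = rdq a b m z := by
    intro z
    rw [Subgroup.mem_comap, Subgroup.mem_map]
  rw [← hsub]
  refine (Subgroup.closure_le _).2 ?_ hcl
  rintro z (hz | ⟨g, s, hs, rfl⟩)
  · have hz1 : rdq a b (m * N) z = 1 := hz
    show z ∈ (D.map (rdq a b m)).comap (rdq a b m)
    rw [hsub]
    exact ⟨1, D.one_mem, by rw [map_one, N0ccl_ker hz1]⟩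
  · show g * eU s * g⁻¹ ∈ (D.map (rdq a b m)).comap (rdq a b m)
    rw [hsub]
    obtain ⟨t, ht⟩ := Ideal.mem_span_singleton.1 hs
    refine ⟨g * eU s * g⁻¹, ?_, rfl⟩
    have h1 : g * eU s * g⁻¹ = (g * eU t * g⁻¹) ^ N := by
      rw [conj_pow, N0ccl_eU_pow, ← ht]
    rw [h1]
    exact hpow _

end

end Pool.Agent.F8.NC
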