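import Pool.Agent.Lib.MP_305fdd_al.F8.NC.Stm0

/-!
# MP_305fdd_al, project NC, piece N0_crd: the number of residue classes
-/

set_option autoImplicit false

namespace Pool.Agent.F8.NC

open Pool.Agent.F8.BG Pool.Agent.MP_305fdd_al Pool.Agent.Lib.MP_305fdd_al Pool.Agent.F8
  Pool.Agent.F8.CG
open scoped QuadraticAlgebra

noncomputable section

private theorem N0crd_red {a b : ℤ} {L n : ℕ} (h : L ∣ n) (x : GQ a b) :
    (rdq a b L x).val = (rdq a b n x).val.map (Qfm a b (ZMod.castHom h (ZMod L))) := by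
  apply Matrix.ext
  intro i k
  apply QuadraticAlgebra.ext
  · change (((x.val i k).re : ℤ) : ZMod L) = ZMod.castHom h (ZMod L) (((x.val i k).re : ℤ) : ZMod n)
    rw [map_intCast]
  · change (((x.val i k).im : ℤ) : ZMod L) = ZMod.castHom h (ZMod L) (((x.val i k).im : ℤ) : ZMod n)
    rw [map_intCast]

/-- two elements whose reductions modulo `n` are conjugate are trivial modulo `L` at the same time -/
private theorem N0crd_iff {a b : ℤ} {L n : ℕ} (h : L ∣ n)
    (C E : Matrix (Fin 2) (Fin 2) (Qf a b (ZMod n))) (hCE : C * E = 1) (hEC : E * C = 1)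
    (x y : GQ a b) (hxy : (rdq a b n x).val = C * (rdq a b n y).val * E) :
    rdq a b L x = 1 ↔ rdq a b L y = 1 := by
  set f := Qfm a b (ZMod.castHom h (ZMod L)) with hf
  have h1 : C.map f * E.map f = 1 := by
    rw [← Matrix.map_mul, hCE]
    exact Matrix.map_one f (map_zero f) (map_one f)
  have h2 : E.map f * C.map f = 1 := by
    rw [← Matrix.map_mul, hEC]
    exact Matrix.map_one f (map_zero f) (map_one f)
  have h3 : (rdq a b L x).val = C.map f * (rdq a b L y).val * E.map f := by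
    rw [N0crd_red h x, N0crd_red h y, hxy, Matrix.map_mul, Matrix.map_mul]
  constructor
  · intro hx
    apply Subtype.ext
    rw [hx] at h3
    have h4 : (rdq a b L y).val = E.map f * (C.map f * (rdq a b L y).val * E.map f) * C.map f := by
      rw [Matrix.mul_assoc (C.map f), ← Matrix.mul_assoc (E.map f), h2, Matrix.one_mul,
        Matrix.mul_assoc, h2, Matrix.mul_one]
    rw [h4, ← h3]
    show E.map f * (1 : Matrix (Fin 2) (Fin 2) (Qf a b (ZMod L))) * C.map f = 1
    rw [Matrix.mul_one, h2]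
  · intro hy
    apply Subtype.ext
    rw [h3, hy]
    show C.map f * (1 : Matrix (Fin 2) (Fin 2) (Qf a b (ZMod L))) * E.map f = 1
    rw [Matrix.mul_one, h1]

private theorem N0crd_mono {a b : ℤ} {L n : ℕ} (h : L ∣ n) {x : GQ a b} (hx : x ∈ Gam a b n) :
    x ∈ Gam a b L := by
  have h1 : rdq a b n x = 1 := hx
  have h2 : rdq a b L x = 1 := by
    apply Subtype.ext
    rw [N0crd_red h x, h1]
    exact Matrix.map_one _ (map_zero _) (map_one _)
  exact h2

theorem p_N0crd : N0_crd := by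
  intro a b D m₀ L hC hm hL Λ _ Φ ρ hρ k hk
  have hn : NeZero (L * k) := ⟨Nat.mul_ne_zero hL hk⟩
  obtain ⟨C, E, hCE, hEC, h⟩ := hρ (L * k)
  have hdvd : L ∣ L * k := Nat.dvd_mul_right L k
  rw [Subgroup.relIndex_ker, Subgroup.relIndex_ker]
  have hval : Function.Injective (Subtype.val : SL2 (Qf a b (ZMod (L * k))) → _) :=
    Subtype.val_injective
  have hcon : Function.Injective
      (fun X : Matrix (Fin 2) (Fin 2) (Qf a b (ZMod (L * k))) => C * X * E) := by
    intro X Y hXY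
    have h1 : ∀ Z : Matrix (Fin 2) (Fin 2) (Qf a b (ZMod (L * k))), E * (C * Z * E) * C = Z := by
      intro Z
      rw [Matrix.mul_assoc C, ← Matrix.mul_assoc E, hEC, Matrix.one_mul, Matrix.mul_assoc, hEC,
        Matrix.mul_one]
    rw [← h1 X, ← h1 Y]
    exact congrArg (fun Z => E * Z * C) hXY
  have hset : (Subtype.val '' (((ρ.range ⊓ Gam a b L).map (rdq a b (L * k)) :
        Subgroup (SL2 (Qf a b (ZMod (L * k))))) : Set (SL2 (Qf a b (ZMod (L * k)))))) =
      (fun X => C * X * E) '' (Subtype.val '' (((Gam a b L).map (rdq a b (L * k)) :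
        Subgroup (SL2 (Qf a b (ZMod (L * k))))) : Set (SL2 (Qf a b (ZMod (L * k)))))) := by
    ext X
    constructor
    · rintro ⟨_, ⟨_, ⟨⟨l, rfl⟩, hl⟩, rfl⟩, rfl⟩
      have h2 : Φ.toFun _ ((rdq a b (L * k)).comp D.subtype) l ∈
          ((rdq a b (L * k)).comp D.subtype).range := by
        rw [← Φ.range_eq]
        exact ⟨l, rfl⟩
      obtain ⟨d, hd⟩ := h2
      have h3 := h l
      rw [← hd] at h3
      have h4 : d.val ∈ Gam a b L :=
        (N0crd_iff hdvd C E hCE hEC (ρ l) d.val h3).1 hl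
      exact ⟨_, ⟨_, ⟨d.val, h4, rfl⟩, rfl⟩, h3.symm⟩
    · rintro ⟨_, ⟨_, ⟨d, hd, rfl⟩, rfl⟩, rfl⟩
      have hd₀ : d ∈ Gam a b m₀ := N0crd_mono hm hd
      obtain ⟨y, hy, hyd⟩ := hC (L * k) hn.out d hd₀
      have h2 : rdq a b (L * k) d ∈ (Φ.toFun _ ((rdq a b (L * k)).comp D.subtype)).range := by
        rw [Φ.range_eq]
        exact ⟨⟨y, hy⟩, hyd⟩
      obtain ⟨l, hl⟩ := h2
      have h3 := h l
      rw [hl] at h3
      have h4 : ρ l ∈ Gam a b L := (N0crd_iff hdvd C E hCE hEC (ρ l) d h3).2 hd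
      exact ⟨_, ⟨ρ l, ⟨⟨l, rfl⟩, h4⟩, rfl⟩, h3⟩
  have h5 := Nat.card_image_of_injective hval
    (((ρ.range ⊓ Gam a b L).map (rdq a b (L * k)) :
        Subgroup (SL2 (Qf a b (ZMod (L * k))))) : Set (SL2 (Qf a b (ZMod (L * k)))))
  have h6 := Nat.card_image_of_injective hval
    (((Gam a b L).map (rdq a b (L * k)) :
        Subgroup (SL2 (Qf a b (ZMod (L * k))))) : Set (SL2 (Qf a b (ZMod (L * k)))))
  have h7 := Nat.card_image_of_injective hcon (Subtype.val '' (((Gam a b L).map (rdq a b (L * k)) :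
        Subgroup (SL2 (Qf a b (ZMod (L * k))))) : Set (SL2 (Qf a b (ZMod (L * k))))))
  rw [hset] at h5
  exact h5.symm.trans (h7.trans h6)

end

end Pool.Agent.F8.NC
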