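import Pool.Agent.Lib.MP_305fdd_al.F8.NC.Stm0
import Pool.Agent.Lib.MP_305fdd_al.F8.BG.StmI

/-!
# MP_305fdd_al, project NC: the finite index criterion with two towers
-/

set_option autoImplicit false

namespace Pool.Agent.F8.NC

open Pool.Agent.F8.BG Pool.Agent.F8 Pool.Agent.F8.CG

theorem p_N0fi (hfg : N0_fg) (hinf : BG.S_inf) : N0_fi := by
  intro ι _ α N w hN hpos Γ₁ Γ₂ E D hT hT2 H hH hHF hxy q _ C h1 h2 h3 hp
  obtain ⟨h4, h5⟩ := hfg ι α Γ₁ Γ₂ E D hT hT2 H hH hHF hxy q C h1 h2 h3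
  exact hinf ι α N w hN hpos H h4 h5 hp

end Pool.Agent.F8.NC
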