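import Pool.Agent.Lib.MP_305fdd_al.F8.NC.Stm0

/-!
# MP_305fdd_al, noncongruence subgroups: piece N0tow, the tower `η(D ∩ Γ(2^j L))` (helper38)

(Adapted from `CG/P_Ftow.lean` of helper53.)
-/

set_option autoImplicit false

namespace Pool.Agent.F8.NC

open Pool.Agent.F8.BG Pool.Agent.MP_305fdd_al Pool.Agent.Lib.MP_305fdd_al Pool.Agent.F8
  Pool.Agent.F8.CG
open scoped QuadraticAlgebra

section

variable {a b : ℤ}

private theorem N0tow_finite (a b : ℤ) (m : ℕ) [NeZero m] : Finite (SL2 (Qf a b (ZMod m))) := by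
  have : Finite (Qf a b (ZMod m)) :=
    Finite.of_equiv (ZMod m × ZMod m) (QuadraticAlgebra.equivProd (a : ZMod m) (b : ZMod m)).symm
  infer_instance

private theorem N0tow_int (m : ℕ) (x y : ℤ) (h : ((x : ℤ) : ZMod m) = (y : ZMod m)) :
    (m : ℤ) ∣ x - y := by
  have h1 : (((x - y : ℤ)) : ZMod m) = 0 := by rw [Int.cast_sub, h, sub_self]
  exact (ZMod.intCast_zmod_eq_zero_iff_dvd _ _).1 h1

private theorem N0tow_ent {m : ℕ} {g : GQ a b} (h : rdq a b m g = 1) (i j : Fin 2) :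
    (m : ℤ) ∣ (g.val i j).re - ((1 : GQ a b).val i j).re ∧
    (m : ℤ) ∣ (g.val i j).im - ((1 : GQ a b).val i j).im := by
  have h1 : rdq a b m g = rdq a b m 1 := by rw [h, map_one]
  have h2 : Qfm a b (Int.castRingHom (ZMod m)) (g.val i j) =
      Qfm a b (Int.castRingHom (ZMod m)) ((1 : GQ a b).val i j) :=
    congrArg (fun x : SL2 (Qf a b (ZMod m)) => x.val i j) h1
  rw [Qfm_apply, Qfm_apply] at h2
  exact ⟨N0tow_int _ _ _ (congrArg QuadraticAlgebra.re h2),
    N0tow_int _ _ _ (congrArg QuadraticAlgebra.im h2)⟩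

private theorem N0tow_red {m k : ℕ} (hmk : m ∣ k) {g : GQ a b} (h : rdq a b k g = 1) :
    rdq a b m g = 1 := by
  have key : ∀ i j, Qfm a b (Int.castRingHom (ZMod m)) (g.val i j) =
      Qfm a b (Int.castRingHom (ZMod m)) ((1 : GQ a b).val i j) := by
    intro i j
    obtain ⟨h1, h2⟩ := N0tow_ent h i j
    have hd : (m : ℤ) ∣ k := by exact_mod_cast hmk
    have c : ∀ x y : ℤ, (k : ℤ) ∣ x - y →
        Int.castRingHom (ZMod m) x = Int.castRingHom (ZMod m) y := by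
      intro x y hab
      have h3 : (((x - y : ℤ)) : ZMod m) = 0 :=
        (ZMod.intCast_zmod_eq_zero_iff_dvd _ _).2 (hd.trans hab)
      rw [Int.cast_sub, sub_eq_zero] at h3
      exact h3
    rw [Qfm_apply, Qfm_apply, c _ _ h1, c _ _ h2]
  have h1 : rdq a b m g = rdq a b m 1 := G.SL_ext (key 0 0) (key 0 1) (key 1 0) (key 1 1)
  rw [h1, map_one]

private theorem N0tow_map_index {P Q : Type} [Group P] [Group Q] (f : P →* Q)
    (hf : f.range.FiniteIndex) (A : Subgroup P) (hA : A.FiniteIndex) : (A.map f).FiniteIndex := by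
  constructor
  rw [Subgroup.index_map]
  have h1 : (A ⊔ f.ker).FiniteIndex := Subgroup.finiteIndex_of_le le_sup_left
  exact Nat.mul_ne_zero h1.index_ne_zero hf.index_ne_zero

private theorem N0tow_zero (L : ℕ) (n : ℤ) (h : ∀ j : ℕ, ((2 ^ j * L : ℕ) : ℤ) ∣ n) : n = 0 := by
  by_contra hn
  have h1 : ∀ j : ℕ, 2 ^ j ≤ n.natAbs := by
    intro j
    have h2 : (2 ^ j * L : ℕ) ∣ n.natAbs := by
      have h3 := Int.natAbs_dvd_natAbs.2 (h j)
      rwa [Int.natAbs_natCast] at h3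
    exact Nat.le_of_dvd (Int.natAbs_pos.2 hn) ((Dvd.intro _ rfl).trans h2)
  exact absurd (h1 n.natAbs) (not_le.2 Nat.lt_two_pow_self)

private theorem N0tow_all (L : ℕ) {g : GQ a b} (h : ∀ j : ℕ, rdq a b (2 ^ j * L) g = 1) :
    g = 1 := by
  have key : ∀ i j, g.val i j = (1 : GQ a b).val i j := by
    intro i j
    apply QuadraticAlgebra.ext
    · exact sub_eq_zero.1 (N0tow_zero L _ fun k => (N0tow_ent (h k) i j).1)
    · exact sub_eq_zero.1 (N0tow_zero L _ fun k => (N0tow_ent (h k) i j).2)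
  exact G.SL_ext (key 0 0) (key 0 1) (key 1 0) (key 1 1)

private theorem N0tow_gam (m : ℕ) (hm : m ≠ 0) : (Gam a b m).FiniteIndex := by
  have : NeZero m := ⟨hm⟩
  have := N0tow_finite a b m
  exact Subgroup.finiteIndex_ker _

private theorem N0tow_mem {m : ℕ} {g : GQ a b} : g ∈ Gam a b m ↔ rdq a b m g = 1 := Iff.rfl

end

/-- PIECE NC tow -/
theorem p_N0tow (hemb : F_emb) : N0_tow := by
  intro a b ι α M c g G₀ η hη D hD L hL hML
  obtain ⟨hle, -, hinj⟩ := hemb a b ι α M c g G₀ η hη L hL hML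
  have hL0 : L ≠ 0 := by omega
  have hfin : ∀ m : ℕ, m ≠ 0 → (imE η (D ⊓ Gam a b m)).FiniteIndex := by
    intro m hm
    have := N0tow_gam (a := a) (b := b) m hm
    have hDm : (D ⊓ Gam a b m).FiniteIndex := inferInstance
    exact N0tow_map_index η hη.fin _ inferInstance
  have hmono : ∀ {m k : ℕ}, m ∣ k → imE η (D ⊓ Gam a b k) ≤ imE η (D ⊓ Gam a b m) := by
    intro m k hmk
    apply Subgroup.map_mono
    intro x hx
    exact ⟨hx.1, N0tow_red hmk hx.2⟩
  refine ⟨hfin L hL0, ?_, ?_, ?_, ?_, ?_⟩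
  · intro i j hij
    exact hmono (Nat.mul_dvd_mul_right (pow_dvd_pow 2 hij) L)
  · intro j
    exact hmono (Dvd.intro_left _ rfl)
  · intro j
    exact hfin _ (Nat.mul_ne_zero (by positivity) hL0)
  · rintro j _ ⟨x, hx, rfl⟩ _ ⟨d, hd, rfl⟩
    refine ⟨x * d * x⁻¹, ?_, by simp⟩
    have h1 : d.val ∈ Gam a b (2 ^ j * L) := hd.2
    have h2 : x.val * d.val * x.val⁻¹ ∈ Gam a b (2 ^ j * L) := by
      rw [N0tow_mem] at h1 ⊢
      rw [map_mul, map_mul, h1, mul_one, map_inv, mul_inv_cancel]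
    have h3 : x.val * d.val * x.val⁻¹ ∈ D := D.mul_mem (D.mul_mem hx.1 hd.1) (D.inv_mem hx.1)
    exact ⟨h3, h2⟩
  · intro y hy
    obtain ⟨x, hx, rfl⟩ := hy 0
    have hxL : x.val ∈ Gam a b L := by
      have h1 : x.val ∈ Gam a b (2 ^ 0 * L) := hx.2
      rwa [pow_zero, one_mul] at h1
    have hall : ∀ j : ℕ, rdq a b (2 ^ j * L) x.val = 1 := by
      intro j
      obtain ⟨z, hz, hzx⟩ := hy j
      have hz1 : z.val ∈ Gam a b (2 ^ j * L) := hz.2
      have hz2 : z.val ∈ Gam a b L := N0tow_red (Dvd.intro_left _ rfl) hz1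
      have h2 := hinj z x hz2 hxL hzx
      rw [← h2]
      exact hz1
    have h3 : x = 1 := Subtype.ext (N0tow_all L hall)
    rw [h3, map_one]

end Pool.Agent.F8.NC
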