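import Pool.Agent.Lib.MP_305fdd_al.F8.NC.MainFin
import Pool.Agent.Lib.MP_305fdd_al.F8.NC.P_N0ccl
import Pool.Agent.Lib.MP_305fdd_al.F8.NC.P_N0cmp
import Pool.Agent.Lib.MP_305fdd_al.F8.NC.P_N0crd
import Pool.Agent.Lib.MP_305fdd_al.F8.NC.P_N0fi
import Pool.Agent.Lib.MP_305fdd_al.F8.NC.P_N0fin
import Pool.Agent.Lib.MP_305fdd_al.F8.NC.P_N0tow
import Pool.Agent.Lib.MP_305fdd_al.F8.NC.P.P_N0fg
import Pool.Agent.Lib.MP_305fdd_al.F8.CG.AllB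
import Pool.Agent.Lib.MP_305fdd_al.F8.CG.Five36
import Pool.Agent.Lib.MP_305fdd_al.F8.CG.P_XgnI
import Pool.Agent.Lib.MP_305fdd_al.F8.CG.MainY

/-!
# MP_305fdd_al, all lattices (project NC): assembly

`rigid_comm`, `rigid_psl`: everything, if the two main statements (`SU`) are true for the five rings.
-/

set_option autoImplicit false

namespace Pool.Agent.F8.NC

open Pool.Agent.F8.BG Pool.Agent.MP_305fdd_al Pool.Agent.Lib.MP_305fdd_al Pool.Agent.F8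
  Pool.Agent.F8.CG NumberField
open scoped QuadraticAlgebra MatrixGroups

theorem m_N0fin : N0_fin :=
  p_N0fin (p_N0ccl p_XgnI) (p_N0fi (p_N0fg m_b1 m_lin p_fre) BG.m_inf) (p_N0tow p_Femb) p_N0crd
    (p_N0cmp p_b1n p_b1s p_Femb) (p_Fnpr BG.m_par) p_Femb p_Ftwo (p_Ftow p_Femb)

/-- the data of a quadratic field with a square root of `-1`, `-2`, `-3`, `-7` or `-11` -/
theorem ex_rigC (hSU : ∀ p ∈ BG.fives, SU p.1 p.2) (K : Type) [Field K] [NumberField K]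
    (hK : Module.finrank ℚ K = 2) (w : K)
    (hw : w ^ 2 = -1 ∨ w ^ 2 = -2 ∨ w ^ 2 = -3 ∨ w ^ 2 = -7 ∨ w ^ 2 = -11) :
    ∃ (a b : ℤ), b ^ 2 + 4 * a < 0 ∧ RigC (Qf a b ℤ) ∧ Nonempty (Qf a b ℤ ≃+* 𝓞 K) := by
  obtain ⟨p, hp, h⟩ := ex_ring K hK w hw
  obtain ⟨h5, hd, -, -⟩ := datC z_thFm p hp
  have hd' := hd
  obtain ⟨ι, _, α, N, w', M, c, g, G₀, η, hdat⟩ := hd'
  have hfg : Group.FG (GQ p.1 p.2) := blk.fg p.1 p.2 ι α M c g G₀ η hdat.eta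
  exact ⟨p.1, p.2, hdat.neg, rigC_of hdat.neg hfg m_Emain m_N0fin h5 hd (uni36 p hp) (hSU p hp), h⟩

/-- all groups commensurable with `SL(2, O_K)` -/
theorem rigid_comm (hSU : ∀ p ∈ BG.fives, SU p.1 p.2) (K : Type) [Field K] [NumberField K]
    (hK : Module.finrank ℚ K = 2) (w : K)
    (hw : w ^ 2 = -1 ∨ w ^ 2 = -2 ∨ w ^ 2 = -3 ∨ w ^ 2 = -7 ∨ w ^ 2 = -11) : RigC (𝓞 K) := by
  obtain ⟨a, b, -, h, ⟨e⟩⟩ := ex_rigC hSU K hK w hw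
  exact h.equiv e

/-- all lattices of `PSL(2, ℂ)` commensurable with the image of `SL(2, O_K)` -/
theorem rigid_psl (hSU : ∀ p ∈ BG.fives, SU p.1 p.2) (K : Type) [Field K] [NumberField K]
    (hK : Module.finrank ℚ K = 2) (w : K)
    (hw : w ^ 2 = -1 ∨ w ^ 2 = -2 ∨ w ^ 2 = -3 ∨ w ^ 2 = -7 ∨ w ^ 2 = -11)
    (i : 𝓞 K →+* ℂ) (Γ : Subgroup PSL(2, ℂ))
    (hΓ : Subgroup.Commensurable Γ (Cong.toPSL i).range) : ProfinitelyRigid Γ := by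
  obtain ⟨a, b, hn, h, ⟨e⟩⟩ := ex_rigC hSU K hK w hw
  exact psl_of K hn e h i Γ hΓ

end Pool.Agent.F8.NC
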