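import Pool.Agent.Lib.MP_305fdd_al.F8.NC.DefsE

/-!
# MP_305fdd_al, all lattices (project NC): finite extensions of strongly rigid groups

`rigid_ext`: if `N = ker θ` is a normal subgroup of finite index of a finitely generated group `G`, `N` is strongly rigid, the automorphisms of `N` which are inner in all finite quotients are inner, and the centre of `N`
is trivial, then `G` is profinitely rigid.
-/

set_option autoImplicit false

namespace Pool.Agent.F8.NC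

open Pool.Agent.MP_305fdd_al Pool.Agent.Lib.MP_305fdd_al Pool.Agent.F8

section

variable {G Q Λ : Type} [Group G] [Group Q] [Finite Q] [Group Λ] {θ : G →* Q} {Ψ : NatBij G Λ}

/-- `z` acts on `ker θ` as `l` acts on `ker θ'` -/
def Act (θ : G →* Q) (Ψ : NatBij G Λ) (φ : θ.ker ≃* (Ψ.toFun Q θ).ker) (l : Λ) (z : G) : Prop :=
  θ z = Ψ.toFun Q θ l ∧ ∀ m, φ (cjN θ.ker z m) = cjN (Ψ.toFun Q θ).ker l (φ m)

/-- a homomorphism of a subgroup of finite index to a finite group is dominated by a homomorphism of the group -/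
theorem ex_dom (θ : G →* Q) {R : Type} [Group R] [Finite R] (f : θ.ker →* R) :
    ∃ (E : Type) (_ : Group E) (_ : Finite E) (F : G →* E), ∀ x y : θ.ker, F x = F y → f x = f y := by
  have h0 : θ.ker.index ≠ 0 := (Subgroup.finiteIndex_ker θ).index_ne_zero
  have h1 : f.ker.index ≠ 0 := (Subgroup.finiteIndex_ker f).index_ne_zero
  let K : Subgroup G := f.ker.map θ.ker.subtype
  have hK : K.FiniteIndex := ⟨by
    have h2 : K.index = f.ker.index * θ.ker.index := Subgroup.index_map_subtype _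
    rw [h2]
    exact mul_ne_zero h1 h0⟩
  have hK₀ : K.normalCore.FiniteIndex := Subgroup.finiteIndex_normalCore K
  have hfq : Finite (G ⧸ K.normalCore) := Subgroup.finite_quotient_of_finiteIndex
  refine ⟨G ⧸ K.normalCore, inferInstance, hfq, QuotientGroup.mk' _, ?_⟩
  intro x y h
  have h2 : (x : G)⁻¹ * y ∈ K.normalCore := QuotientGroup.eq.1 h
  obtain ⟨k, hk, hk2⟩ := Subgroup.normalCore_le K h2
  have h3 : k = x⁻¹ * y := Subtype.ext hk2
  have h4 : f k = 1 := hk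
  rw [h3, map_mul, map_inv] at h4
  exact inv_mul_eq_one.1 h4

theorem ex_act [Group.FG G] [Group.FG Λ]
    (hL : LInn θ.ker) (Φ : NatBij θ.ker (Ψ.toFun Q θ).ker)
    (hΦ : ∀ (R : Type) [Group R] [Finite R] (F : G →* R),
      Φ.toFun R (F.comp θ.ker.subtype) = (Ψ.toFun R F).comp (Ψ.toFun Q θ).ker.subtype)
    (φ : θ.ker ≃* (Ψ.toFun Q θ).ker) (hφ : CjB Φ φ) (l : Λ) : ∃ z, Act θ Ψ φ l z := by
  obtain ⟨x, hx⟩ : ∃ x, θ x = Ψ.toFun Q θ l := by
    obtain ⟨x, hx, -⟩ := pair_val Ψ θ θ l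
    exact ⟨x, hx⟩
  let s : MulAut θ.ker := (φ.trans ((cjN (Ψ.toFun Q θ).ker l).trans φ.symm)) * (cjN θ.ker x)⁻¹
  have hs : ∀ m, φ (s (cjN θ.ker x m)) = cjN (Ψ.toFun Q θ).ker l (φ m) := by
    intro m
    show φ (φ.symm (cjN (Ψ.toFun Q θ).ker l (φ ((cjN θ.ker x)⁻¹ (cjN θ.ker x m))))) = _
    rw [MulEquiv.apply_symm_apply, MulAut.inv_apply_self]
  obtain ⟨g, hg⟩ := hL s (by
    intro R _ _ f
    obtain ⟨E, _, _, F, hF⟩ := ex_dom θ f
    obtain ⟨q, ⟨q₀, rfl⟩, hq⟩ := hφ E (F.comp θ.ker.subtype)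
    have hq' : ∀ n : θ.ker, Ψ.toFun E F (φ n) = F (q₀ * n * (q₀ : G)⁻¹) := by
      intro n
      have h1 := hq n
      rw [hΦ] at h1
      rw [map_mul, map_mul, map_inv]
      exact h1
    obtain ⟨y, hy1, hy2⟩ := pair_val Ψ F θ l
    have hyx : y * x⁻¹ ∈ θ.ker := by
      rw [MonoidHom.mem_ker, map_mul, map_inv, hy2, hx, mul_inv_cancel]
    have hk : (q₀ : G)⁻¹ * (y * q₀ * y⁻¹) * (y * x⁻¹) ∈ θ.ker :=
      mul_mem (mul_mem (inv_mem q₀.2) (Subgroup.Normal.conj_mem inferInstance _ q₀.2 y)) hyx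
    refine ⟨f ⟨_, hk⟩, ⟨_, rfl⟩, ?_⟩
    intro n
    rw [← map_mul, ← map_inv, ← map_mul]
    apply hF
    obtain ⟨m, rfl⟩ : ∃ m, cjN θ.ker x m = n := ⟨(cjN θ.ker x)⁻¹ n, MulAut.apply_inv_self _ _ _⟩
    have h1 := congrArg (fun w : (Ψ.toFun Q θ).ker => Ψ.toFun E F w) (hs m)
    rw [hq', cjN_val, (Ψ.toFun E F).map_mul, (Ψ.toFun E F).map_mul, (Ψ.toFun E F).map_inv, hq', ← hy1] at h1
    have h2 : F (s (cjN θ.ker x m) : G) = F ((q₀ : G)⁻¹ * (y * (q₀ * m * (q₀ : G)⁻¹) * y⁻¹) * q₀) := by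
      simp only [map_mul, map_inv] at h1 ⊢
      rw [← h1]
      group
    rw [h2]
    congr 1
    show _ = (q₀ : G)⁻¹ * (y * q₀ * y⁻¹) * (y * x⁻¹) * (x * m * x⁻¹) *
      ((q₀ : G)⁻¹ * (y * q₀ * y⁻¹) * (y * x⁻¹))⁻¹
    group)
  refine ⟨g * x, ?_, ?_⟩
  · rw [map_mul, MonoidHom.mem_ker.1 g.2, one_mul, hx]
  · intro m
    rw [← hs m, hg]
    congr 1
    apply Subtype.ext
    rw [cjN_val]
    show (g : G) * x * m * ((g : G) * x)⁻¹ = g * (cjN θ.ker x m : G) * (g : G)⁻¹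
    rw [cjN_val]
    group

/-- Finite extensions of strongly rigid groups are rigid. -/
theorem rigid_ext [Group.FG G] (hS : SRig θ.ker) (hL : LInn θ.ker)
    (hZ : ∀ x ∈ θ.ker, (∀ n ∈ θ.ker, x * n = n * x) → x = 1) : ProfinitelyRigid G := by
  intro Λ _ hΛ
  obtain ⟨hfg, hR, hsame⟩ := hΛ
  obtain ⟨Ψ⟩ := exists_natBij hsame.symm
  obtain ⟨Φ, hΦ⟩ := natBij_ker (π := θ) Ψ rfl
  have hfi : (Ψ.toFun Q θ).ker.FiniteIndex := Subgroup.finiteIndex_ker _
  have hfg1 : Group.FG (Ψ.toFun Q θ).ker := Subgroup.fg_of_index_ne_zero _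
  obtain ⟨φ, hφ⟩ := hS _ inferInstance Φ
  have hex := ex_act hL Φ hΦ φ hφ
  have huniq : ∀ l z z', Act θ Ψ φ l z → Act θ Ψ φ l z' → z = z' := by
    intro l z z' h h'
    have h1 : z⁻¹ * z' = 1 := by
      apply hZ
      · rw [MonoidHom.mem_ker, map_mul, map_inv, h.1, h'.1, inv_mul_cancel]
      intro n hn
      have h2 := φ.injective ((h.2 ⟨n, hn⟩).trans (h'.2 ⟨n, hn⟩).symm)
      have h3 := congrArg (fun w : θ.ker => (w : G)) h2
      simp only [cjN_val] at h3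
      have h4 : z⁻¹ * z' * n = z⁻¹ * (z' * n * z'⁻¹) * z' := by group
      rw [h4, ← h3]
      group
    exact inv_mul_eq_one.1 h1
  have hmul : ∀ l l' z z', Act θ Ψ φ l z → Act θ Ψ φ l' z' → Act θ Ψ φ (l * l') (z * z') := by
    intro l l' z z' h h'
    refine ⟨by rw [map_mul, map_mul, h.1, h'.1], ?_⟩
    intro m
    rw [cjN_mul, cjN_mul, h.2, h'.2]
  choose ζ hζ using hex
  let f : Λ →* G := MonoidHom.mk' ζ fun l l' =>
    huniq _ _ _ (hζ (l * l')) (hmul _ _ _ _ (hζ l) (hζ l'))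
  have hf : ∀ l, Act θ Ψ φ l (f l) := hζ
  refine ⟨MulEquiv.ofBijective f ⟨?_, ?_⟩⟩
  · rw [injective_iff_map_eq_one]
    intro l hl
    have h1 := hf l
    rw [hl] at h1
    have hl1 : l ∈ (Ψ.toFun Q θ).ker := by
      rw [MonoidHom.mem_ker, ← h1.1, map_one]
    have h2 : ∀ m : θ.ker, φ m = cjN (Ψ.toFun Q θ).ker l (φ m) := by
      intro m
      rw [← h1.2 m]
      congr 1
      apply Subtype.ext
      rw [cjN_val]
      group
    have h3 : (φ.symm ⟨l, hl1⟩ : G) = 1 := by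
      apply hZ _ (φ.symm ⟨l, hl1⟩).2
      intro n hn
      have h4 : (⟨l, hl1⟩ : (Ψ.toFun Q θ).ker) * φ ⟨n, hn⟩ = φ ⟨n, hn⟩ * ⟨l, hl1⟩ := by
        apply Subtype.ext
        have h5 := congrArg (fun w : (Ψ.toFun Q θ).ker => (w : Λ)) (h2 ⟨n, hn⟩)
        simp only [cjN_val] at h5
        show l * (φ ⟨n, hn⟩ : Λ) = (φ ⟨n, hn⟩ : Λ) * l
        conv_rhs => rw [h5]
        group
      have h6 := congrArg (fun w => (φ.symm w : G)) h4
      simpa using h6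
    have h4 : φ.symm ⟨l, hl1⟩ = 1 := Subtype.ext h3
    have h5 : (⟨l, hl1⟩ : (Ψ.toFun Q θ).ker) = 1 := by
      rw [← φ.apply_symm_apply ⟨l, hl1⟩, h4, map_one]
    exact congrArg Subtype.val h5
  · have hker : ∀ n : θ.ker, f (φ n) = n := by
      intro n
      refine huniq (φ n) _ _ (hf _) ⟨?_, ?_⟩
      · rw [MonoidHom.mem_ker.1 n.2, MonoidHom.mem_ker.1 (φ n).2]
      · intro m
        have h1 : cjN θ.ker (n : G) m = n * m * n⁻¹ := Subtype.ext rfl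
        rw [h1, map_mul, map_mul, map_inv]
        exact Subtype.ext rfl
    intro g
    obtain ⟨l, -, hl⟩ := pair_val Ψ.symm (Ψ.toFun Q θ) (Ψ.toFun Q θ) g
    have h0 : Ψ.symm.toFun Q (Ψ.toFun Q θ) = θ := Ψ.left_inv Q θ
    rw [h0] at hl
    have h1 : g * (f l)⁻¹ ∈ θ.ker := by
      rw [MonoidHom.mem_ker, map_mul, map_inv, (hf l).1, hl, mul_inv_cancel]
    refine ⟨(φ ⟨_, h1⟩ : Λ) * l, ?_⟩
    rw [map_mul, hker]
    group

end

end Pool.Agent.F8.NC
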