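import Pool.Agent.Lib.MP_305fdd_al.F8.NC.MainSR
import Pool.Agent.Lib.MP_305fdd_al.F8.CG.StmX
import Pool.Agent.Lib.MP_305fdd_al.F8.BG.DefsU
import Pool.Agent.Lib.MP_305fdd_al.F8.CG.GamLe
import Pool.Agent.Lib.MP_305fdd_al.F8.BG.P_con

/-!
# MP_305fdd_al, all lattices (project NC): the end

`rigid_of`: a group `G` which has a subgroup of finite index isomorphic to a subgroup of finite index of `SL₂(ℤ[w])` is profinitely rigid, if the two main statements `SRF`, `U2D` are true and the conclusion of block 0 (`RFI`) is true.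
-/

set_option autoImplicit false

namespace Pool.Agent.F8.NC

open Pool.Agent.F8.BG Pool.Agent.MP_305fdd_al Pool.Agent.Lib.MP_305fdd_al Pool.Agent.F8
  Pool.Agent.F8.CG
open scoped QuadraticAlgebra

theorem SRig.equiv {G G' : Type} [Group G] [Group G'] (e : G ≃* G') (h : SRig G) : SRig G' := by
  intro Λ _ _ hres Φ
  obtain ⟨φ, hφ⟩ := h Λ hres (natBij_equiv e Φ)
  refine ⟨e.symm.trans φ, ?_⟩
  intro Q _ _ f
  obtain ⟨q, ⟨g, hg⟩, h1⟩ := hφ Q (f.comp e.toMonoidHom)
  refine ⟨q, ⟨e g, hg⟩, ?_⟩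
  intro x
  have h2 := h1 (e.symm x)
  have h3 : (natBij_equiv e Φ).toFun Q (f.comp e.toMonoidHom) = Φ.toFun Q f := by
    show Φ.toFun Q ((f.comp e.toMonoidHom).comp e.symm.toMonoidHom) = _
    congr 1
    ext y
    simp
  rw [h3] at h2
  show Φ.toFun Q f (φ (e.symm x)) = _
  rw [h2]
  show q * f (e (e.symm x)) * q⁻¹ = _
  rw [e.apply_symm_apply]

theorem LInn.equiv {G G' : Type} [Group G] [Group G'] (e : G ≃* G') (h : LInn G) : LInn G' := by
  intro s hs
  let s' : MulAut G := (e.trans s).trans e.symm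
  obtain ⟨g, hg⟩ := h s' (by
    intro Q _ _ f
    obtain ⟨q, ⟨y, hy⟩, h1⟩ := hs Q (f.comp e.symm.toMonoidHom)
    refine ⟨q, ⟨e.symm y, hy⟩, ?_⟩
    intro x
    have h2 := h1 (e x)
    have h3 : f (e.symm (s (e x))) = q * f (e.symm (e x)) * q⁻¹ := h2
    rw [e.symm_apply_apply] at h3
    exact h3)
  refine ⟨e g, ?_⟩
  intro x
  have h1 := hg (e.symm x)
  have h2 : e.symm (s (e (e.symm x))) = g * e.symm x * g⁻¹ := h1
  rw [e.apply_symm_apply] at h2
  apply e.symm.injective
  rw [h2, map_mul, map_mul, map_inv, e.symm_apply_apply]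

variable {a b : ℤ}

/-- automorphisms of `D` which are inner in all finite quotients are inner -/
theorem linn_of {M₀ : ℕ} (hU : U2D a b M₀) (D : Subgroup (GQ a b)) (hD : D ≤ Gam a b M₀)
    (hfi : D.FiniteIndex) : LInn D := by
  intro s hs
  apply hU D hD hfi s
  intro N _ _
  obtain ⟨q, ⟨d, rfl⟩, hq⟩ := hs _ ((QuotientGroup.mk' N).comp D.subtype)
  refine ⟨d, ?_⟩
  intro x
  rw [map_mul, map_mul, map_inv]
  exact hq x

theorem eU_pow' (n : ℕ) : (eU 1 ^ n : GQ a b) = eU (n : Qf a b ℤ) := by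
  induction n with
  | zero =>
    rw [pow_zero]
    unfold eU
    rw [AB.mx_one]
    apply AB.mx_congr <;> simp
  | succ n ih =>
    rw [pow_succ, ih]
    unfold eU
    rw [AB.mx_mul]
    apply AB.mx_congr <;> push_cast <;> ring

theorem eV_pow' (n : ℕ) : (eV 1 ^ n : GQ a b) = eV (n : Qf a b ℤ) := by
  induction n with
  | zero =>
    rw [pow_zero]
    unfold eV
    rw [AB.mx_one]
    apply AB.mx_congr <;> simp
  | succ n ih =>
    rw [pow_succ, ih]
    unfold eV
    rw [AB.mx_mul]
    apply AB.mx_congr <;> push_cast <;> ring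

/-- The centre of `D` is trivial. -/
theorem cen_of (hn : b ^ 2 + 4 * a < 0) {M₀ : ℕ} (h3 : 3 ≤ M₀) (D : Subgroup (GQ a b))
    (hD : D ≤ Gam a b M₀) (hfi : D.FiniteIndex) (x : D) (hx : ∀ y : D, x * y = y * x) : x = 1 := by
  have hdom : IsDomain (Qf a b ℤ) := Qf_domain hn
  have hpow : ∀ g : GQ a b, g ^ D.index.factorial ∈ D := fun g =>
    Subgroup.pow_mem_of_index_ne_zero_of_dvd hfi.index_ne_zero g
      fun n h1 h2 => Nat.dvd_factorial h1 h2
  have hn0 : ((D.index.factorial : ℕ) : Qf a b ℤ) ≠ 0 := by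
    intro h
    have h1 := congrArg QuadraticAlgebra.re h
    have h2 : (((D.index.factorial : ℕ) : Qf a b ℤ)).re = (D.index.factorial : ℤ) :=
      QuadraticAlgebra.re_natCast _
    rw [h2] at h1
    exact (Nat.factorial_ne_zero _) (by exact_mod_cast h1)
  generalize D.index.factorial = n at hpow hn0
  have h1 := congrArg (fun z : D => (z : GQ a b).val) (hx ⟨_, hpow (eU 1)⟩)
  have h2 := congrArg (fun z : D => (z : GQ a b).val) (hx ⟨_, hpow (eV 1)⟩)
  have h1' : (x : GQ a b).val * (eU (n : Qf a b ℤ) : GQ a b).val =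
      (eU (n : Qf a b ℤ) : GQ a b).val * (x : GQ a b).val := by
    rw [← eU_pow']
    exact h1
  have h2' : (x : GQ a b).val * (eV (n : Qf a b ℤ) : GQ a b).val =
      (eV (n : Qf a b ℤ) : GQ a b).val * (x : GQ a b).val := by
    rw [← eV_pow']
    exact h2
  have a1 := congrFun (congrFun h1' 0) 0
  have a2 := congrFun (congrFun h1' 0) 1
  have b1 := congrFun (congrFun h2' 0) 0
  simp only [Matrix.mul_apply, Fin.sum_univ_two, eU, eV, AB.mx, Matrix.cons_val', Matrix.cons_val_zero,
    Matrix.cons_val_one, Matrix.cons_val_fin_one, Matrix.of_apply] at a1 a2 b1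
  have hr : (x : GQ a b).val 1 0 = 0 := by
    have h4 : (n : Qf a b ℤ) * (x : GQ a b).val 1 0 = 0 := by linear_combination -a1
    exact (mul_eq_zero.1 h4).resolve_left hn0
  have hq : (x : GQ a b).val 0 1 = 0 := by
    have h4 : (n : Qf a b ℤ) * (x : GQ a b).val 0 1 = 0 := by linear_combination b1
    exact (mul_eq_zero.1 h4).resolve_left hn0
  have hps : (x : GQ a b).val 0 0 = (x : GQ a b).val 1 1 := by
    have h4 : (n : Qf a b ℤ) * ((x : GQ a b).val 0 0 - (x : GQ a b).val 1 1) = 0 := by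
      linear_combination a2
    exact sub_eq_zero.1 ((mul_eq_zero.1 h4).resolve_left hn0)
  have hdet : (x : GQ a b).val 0 0 * (x : GQ a b).val 0 0 = 1 := by
    have h4 := (x : GQ a b).2
    rw [Matrix.det_fin_two, hr, hq, ← hps] at h4
    linear_combination h4
  have hx1 : (x : GQ a b) = 1 ∨ (x : GQ a b) = -1 := by
    rcases mul_self_eq_one_iff.1 hdet with h | h
    · left
      apply Subtype.ext
      refine Matrix.ext fun i k => ?_
      fin_cases i <;> fin_cases k
      · exact h
      · exact hq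
      · exact hr
      · exact hps.symm.trans h
    · right
      apply Subtype.ext
      refine Matrix.ext fun i k => ?_
      have e0 : ((-1 : GQ a b).val 0 1) = 0 := by
        show -((1 : GQ a b).val 0 1) = 0
        simp
      have e1 : ((-1 : GQ a b).val 1 0) = 0 := by
        show -((1 : GQ a b).val 1 0) = 0
        simp
      have e2 : ((-1 : GQ a b).val 0 0) = -1 := by
        show -((1 : GQ a b).val 0 0) = -1
        simp
      have e3 : ((-1 : GQ a b).val 1 1) = -1 := by
        show -((1 : GQ a b).val 1 1) = -1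
        simp
      fin_cases i <;> fin_cases k
      · exact h.trans e2.symm
      · exact hq.trans e0.symm
      · exact hr.trans e1.symm
      · exact (hps.symm.trans h).trans e3.symm
  apply Subtype.ext
  rcases hx1 with h | h
  · exact h
  · exact absurd h (con_neg h3 (hD x.2))

/-- the conclusion of block 0: for all `D` of finite index in `Γ(M₀)` the matched representation exists and has an image of finite index -/
def RFI (a b : ℤ) (M₀ : ℕ) : Prop := ∀ D : Subgroup (GQ a b), D ≤ Gam a b M₀ → D.FiniteIndex →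
  ∀ (Λ : Type) [Group Λ] [Group.FG Λ] (Φ : NatBij D Λ), ∃ ρ : Λ →* GQ a b,
  RhoG D.subtype Φ ρ ∧ ρ.range.FiniteIndex

private theorem fg_index' {G : Type} [Group G] (N : Subgroup G) (hN : Group.FG N)
    (hi : N.FiniteIndex) : Group.FG G := by
  have h0 : Finite (G ⧸ N) := Subgroup.finite_quotient_of_finiteIndex
  obtain ⟨S, hS, hfin⟩ := (Subgroup.fg_iff N).1 ((Group.fg_iff_subgroup_fg N).1 hN)
  rw [Group.fg_iff]
  refine ⟨S ∪ Set.range (Quotient.out : G ⧸ N → G), ?_, hfin.union (Set.finite_range _)⟩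
  rw [eq_top_iff]
  intro g _
  have h1 : (Quotient.out (g : G ⧸ N))⁻¹ * g ∈ N := QuotientGroup.eq.1 (Quotient.out_eq _)
  have h2 : g = Quotient.out (g : G ⧸ N) * ((Quotient.out (g : G ⧸ N))⁻¹ * g) := by group
  rw [h2]
  refine mul_mem (Subgroup.subset_closure (Or.inr ⟨_, rfl⟩)) ?_
  have h3 : N ≤ Subgroup.closure (S ∪ Set.range (Quotient.out : G ⧸ N → G)) := by
    conv_lhs => rw [← hS]
    exact Subgroup.closure_mono Set.subset_union_left
  exact h3 h1

/-- THE MAIN THEOREM: groups commensurable with `SL₂(ℤ[w])` are profinitely rigid. -/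
theorem rigid_of (hn : b ^ 2 + 4 * a < 0) (hfg : Group.FG (GQ a b)) {M₀ : ℕ} (h3 : 3 ≤ M₀)
    (hR : RFI a b M₀) (hS : SRF a b M₀) (hU : U2D a b M₀) {G : Type} [Group G]
    (G₁ : Subgroup G) (hG₁ : G₁.FiniteIndex) (B : Subgroup (GQ a b)) (hB : B.FiniteIndex)
    (e : G₁ ≃* B) : ProfinitelyRigid G := by
  have : NeZero M₀ := ⟨by omega⟩
  have hf : Finite (SL2 (Qf a b (ZMod M₀))) := inferInstance
  have hGi : (Gam a b M₀).FiniteIndex := Subgroup.finiteIndex_ker _
  -- the subgroup of `G` which corresponds to `B ∩ Γ(M₀)`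
  let A₀ : Subgroup G₁ := ((Gam a b M₀).subgroupOf B).comap e.toMonoidHom
  have hA₀ : A₀.FiniteIndex := by
    constructor
    have h1 : A₀.index = ((Gam a b M₀).subgroupOf B).index :=
      Subgroup.index_comap_of_surjective _ e.surjective
    rw [h1]
    have h2 : ((Gam a b M₀).subgroupOf B).FiniteIndex := inferInstance
    exact h2.index_ne_zero
  let A₁ : Subgroup G := A₀.map G₁.subtype
  have hA₁ : A₁.FiniteIndex := by
    constructor
    have h1 : A₁.index = A₀.index * G₁.index := Subgroup.index_map_subtype _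
    rw [h1]
    exact mul_ne_zero hA₀.index_ne_zero hG₁.index_ne_zero
  let N : Subgroup G := A₁.normalCore
  have hN : N.FiniteIndex := Subgroup.finiteIndex_normalCore A₁
  have hfq : Finite (G ⧸ N) := Subgroup.finite_quotient_of_finiteIndex
  have hNA : N ≤ A₁ := Subgroup.normalCore_le A₁
  have hNG : N ≤ G₁ := by
    intro x hx
    obtain ⟨y, -, rfl⟩ := hNA hx
    exact y.2
  -- the subgroup of `SL₂`
  let D : Subgroup (GQ a b) := ((N.subgroupOf G₁).map e.toMonoidHom).map B.subtype
  have hDfi : D.FiniteIndex := by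
    constructor
    have h1 : D.index = ((N.subgroupOf G₁).map e.toMonoidHom).index * B.index :=
      Subgroup.index_map_subtype _
    have h2 : ((N.subgroupOf G₁).map e.toMonoidHom).index = (N.subgroupOf G₁).index :=
      Subgroup.index_map_equiv _ e
    have h3 : (N.subgroupOf G₁).FiniteIndex := inferInstance
    rw [h1, h2]
    exact mul_ne_zero h3.index_ne_zero hB.index_ne_zero
  have hDM : D ≤ Gam a b M₀ := by
    rintro _ ⟨_, ⟨x, hx, rfl⟩, rfl⟩
    obtain ⟨y, hy, hyx⟩ := hNA hx
    have h4 : y = x := Subtype.ext hyx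
    rw [h4] at hy
    exact hy
  have eN : N ≃* D :=
    ((Subgroup.subgroupOfEquivOfLe hNG).symm.trans
      ((N.subgroupOf G₁).equivMapOfInjective e.toMonoidHom e.injective)).trans
      (Subgroup.equivMapOfInjective _ B.subtype B.subtype_injective)
  have hker : (QuotientGroup.mk' N).ker = N := QuotientGroup.ker_mk' N
  have eK : (QuotientGroup.mk' N).ker ≃* D := (MulEquiv.subgroupCongr hker).trans eN
  have hDfg : Group.FG D := Group.fg_iff_subgroup_fg D |>.2 (Subgroup.fg_of_index_ne_zero D |> fun h => (Group.fg_iff_subgroup_fg D).1 h)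
  have hNfg : Group.FG N := Group.fg_of_surjective (f := eN.symm.toMonoidHom) eN.symm.surjective
  have hGfg : Group.FG G := fg_index' N hNfg hN
  refine rigid_ext (θ := QuotientGroup.mk' N) (SRig.equiv eK.symm
    (srig_of hS D hDM hDfi (fun Λ _ _ Φ => hR D hDM hDfi Λ Φ)))
    (LInn.equiv eK.symm (linn_of hU D hDM hDfi)) ?_
  intro x hx hc
  have h1 : eK ⟨x, hx⟩ = 1 := by
    apply cen_of hn h3 D hDM hDfi
    intro y
    obtain ⟨z, rfl⟩ := eK.surjective y
    rw [← map_mul, ← map_mul]
    congr 1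
    exact Subtype.ext (hc z z.2)
  have h2 : (⟨x, hx⟩ : (QuotientGroup.mk' N).ker) = 1 := by
    rw [← map_one eK] at h1
    exact eK.injective h1
  exact congrArg Subtype.val h2

end Pool.Agent.F8.NC
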