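import Pool.Agent.Lib.MP_305fdd_al.F8.NC.MainN0
import Pool.Agent.Lib.MP_305fdd_al.F8.CG.Fields
import Pool.Agent.Lib.MP_305fdd_al.F8.CG.DefsN
import Pool.Agent.Lib.MP_305fdd_al.F8.CG.InjC

/-!
# MP_305fdd_al, all lattices (project NC): from `ℤ[w]` to the rings of integers and to `PSL(2, ℂ)`
-/

set_option autoImplicit false

namespace Pool.Agent.F8.NC

open Pool.Agent.F8.BG Pool.Agent.MP_305fdd_al Pool.Agent.Lib.MP_305fdd_al Pool.Agent.F8
  Pool.Agent.F8.CG NumberField
open scoped QuadraticAlgebra MatrixGroups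

/-- the rigidity of all groups commensurable with `SL(2, R)` -/
def RigC (R : Type) [CommRing R] : Prop := ∀ (G : Type) [Group G] (G₁ : Subgroup G),
  G₁.FiniteIndex → ∀ B : Subgroup SL(2, R), B.FiniteIndex → Nonempty (G₁ ≃* B) →
  ProfinitelyRigid G

/-- isomorphic rings -/
theorem RigC.equiv {R S : Type} [CommRing R] [CommRing S] (e : R ≃+* S) (h : RigC R) :
    RigC S := by
  intro G _ G₁ hG₁ B hB ⟨f⟩
  let E : SL(2, R) →* SL(2, S) := Matrix.SpecialLinearGroup.map e.toRingHom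
  let E' : SL(2, S) →* SL(2, R) := Matrix.SpecialLinearGroup.map e.symm.toRingHom
  have h1 : ∀ x, E (E' x) = x := by
    intro x
    apply Subtype.ext
    refine Matrix.ext fun i j => ?_
    show e (e.symm (x i j)) = x i j
    exact e.apply_symm_apply _
  have h2 : ∀ x, E' (E x) = x := by
    intro x
    apply Subtype.ext
    refine Matrix.ext fun i j => ?_
    show e.symm (e (x i j)) = x i j
    exact e.symm_apply_apply _
  let EE : SL(2, R) ≃* SL(2, S) :=
    { toFun := E
      invFun := E'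
      left_inv := h2
      right_inv := h1
      map_mul' := map_mul E }
  have hB' : (B.comap EE.toMonoidHom).FiniteIndex := by
    constructor
    rw [Subgroup.index_comap_of_surjective B (f := EE.toMonoidHom) EE.surjective]
    exact hB.index_ne_zero
  refine h G G₁ hG₁ (B.comap EE.toMonoidHom) hB' ⟨f.trans ?_⟩
  exact (MulEquiv.subgroupCongr (Subgroup.map_comap_eq_self_of_surjective EE.surjective B).symm).trans
    ((B.comap EE.toMonoidHom).equivMapOfInjective EE.toMonoidHom EE.injective).symm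

/-- elements of `Γ(3)` in the kernel of the map to `PSL(2, ℂ)` -/
theorem toPSL_inj {a b : ℤ} (hn : b ^ 2 + 4 * a < 0) (j : Qf a b ℤ →+* ℂ)
    (hj : Function.Injective j) (x : GQ a b) (hx : x ∈ Gam a b 3) (h : Cong.toPSL j x = 1) :
    x = 1 := by
  have hdom : IsDomain (Qf a b ℤ) := Qf_domain hn
  have h1 : Matrix.SpecialLinearGroup.map j x ∈ Subgroup.center SL(2, ℂ) :=
    (QuotientGroup.eq_one_iff _).1 h
  rw [Matrix.SpecialLinearGroup.mem_center_iff] at h1
  obtain ⟨r, -, hr⟩ := h1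
  have e : ∀ i k, j (x.val i k) = Matrix.scalar (Fin 2) r i k := by
    intro i k
    rw [hr]
    rfl
  have e01 : x.val 0 1 = 0 := hj (by rw [e, map_zero]; rfl)
  have e10 : x.val 1 0 = 0 := hj (by rw [e, map_zero]; rfl)
  have e11 : x.val 0 0 = x.val 1 1 := hj (by rw [e, e]; simp)
  have hdet : x.val 0 0 * x.val 0 0 = 1 := by
    have h4 := x.2
    rw [Matrix.det_fin_two, e01, e10, ← e11] at h4
    linear_combination h4
  rcases mul_self_eq_one_iff.1 hdet with h2 | h2
  · apply Subtype.ext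
    refine Matrix.ext fun i k => ?_
    fin_cases i <;> fin_cases k
    · exact h2
    · exact e01
    · exact e10
    · exact e11.symm.trans h2
  · exfalso
    apply con_neg (le_refl 3) hx
    apply Subtype.ext
    refine Matrix.ext fun i k => ?_
    have f0 : ((-1 : GQ a b).val 0 1) = 0 := by
      show -((1 : GQ a b).val 0 1) = 0
      simp
    have f1 : ((-1 : GQ a b).val 1 0) = 0 := by
      show -((1 : GQ a b).val 1 0) = 0
      simp
    have f2 : ((-1 : GQ a b).val 0 0) = -1 := by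
      show -((1 : GQ a b).val 0 0) = -1
      simp
    have f3 : ((-1 : GQ a b).val 1 1) = -1 := by
      show -((1 : GQ a b).val 1 1) = -1
      simp
    fin_cases i <;> fin_cases k
    · exact h2.trans f2.symm
    · exact e01.trans f0.symm
    · exact e10.trans f1.symm
    · exact (e11.symm.trans h2).trans f3.symm

/-- lattices of `PSL(2, ℂ)`, over `ℤ[w]` -/
theorem psl_of' {a b : ℤ} (hn : b ^ 2 + 4 * a < 0) (h : RigC (Qf a b ℤ)) (j : Qf a b ℤ →+* ℂ)
    (hj : Function.Injective j) (Γ : Subgroup PSL(2, ℂ))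
    (hΓ : Subgroup.Commensurable Γ (Cong.toPSL j).range) : ProfinitelyRigid Γ := by
  have hf3 : Finite (SL2 (Qf a b (ZMod 3))) := inferInstance
  have h3 : (Gam a b 3).FiniteIndex := Subgroup.finiteIndex_ker _
  have hc : (Γ.comap (Cong.toPSL j)).FiniteIndex := by
    constructor
    rw [Subgroup.index_comap]
    exact hΓ.1
  let B : Subgroup (GQ a b) := Gam a b 3 ⊓ Γ.comap (Cong.toPSL j)
  have hB : B.FiniteIndex := inferInstance
  have hle : B.map (Cong.toPSL j) ≤ Γ := by
    rintro _ ⟨x, hx, rfl⟩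
    exact hx.2
  have hi : (B.map (Cong.toPSL j)).relIndex Γ ≠ 0 := by
    refine Subgroup.relIndex_ne_zero_trans (K := (Cong.toPSL j).range) ?_ hΓ.2
    have h5 : (B ⊔ (Cong.toPSL j).ker).FiniteIndex := Subgroup.finiteIndex_of_le le_sup_left
    have h7 : (B.map (Cong.toPSL j)).comap (Cong.toPSL j) = B ⊔ (Cong.toPSL j).ker :=
      Subgroup.comap_map_eq _ _
    rw [← Subgroup.index_comap, h7]
    exact h5.index_ne_zero
  have hinj : Function.Injective ((Cong.toPSL j).subgroupMap B) := by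
    rw [injective_iff_map_eq_one]
    intro x hx
    exact Subtype.ext (toPSL_inj hn j hj x x.2.1 (congrArg Subtype.val hx))
  refine h Γ ((B.map (Cong.toPSL j)).subgroupOf Γ) ⟨hi⟩ B hB ⟨?_⟩
  exact (Subgroup.subgroupOfEquivOfLe hle).trans
    (MulEquiv.ofBijective _ ⟨hinj, (Cong.toPSL j).subgroupMap_surjective B⟩).symm

/-- lattices of `PSL(2, ℂ)` -/
theorem psl_of (K : Type) [Field K] [NumberField K] {a b : ℤ} (hn : b ^ 2 + 4 * a < 0)
    (e : Qf a b ℤ ≃+* 𝓞 K) (h : RigC (Qf a b ℤ)) (i : 𝓞 K →+* ℂ)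
    (Γ : Subgroup PSL(2, ℂ)) (hΓ : Subgroup.Commensurable Γ (Cong.toPSL i).range) :
    ProfinitelyRigid Γ := by
  refine psl_of' hn h (i.comp e.toRingHom) ((inj_C K i).comp e.injective) Γ ?_
  have h1 : (Cong.toPSL (i.comp e.toRingHom)).range = (Cong.toPSL i).range := by
    apply le_antisymm
    · rintro _ ⟨x, rfl⟩
      exact ⟨Matrix.SpecialLinearGroup.map e.toRingHom x, rfl⟩
    · rintro _ ⟨x, rfl⟩
      refine ⟨Matrix.SpecialLinearGroup.map e.symm.toRingHom x, ?_⟩
      show QuotientGroup.mk' _ _ = QuotientGroup.mk' _ _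
      congr 1
      apply Subtype.ext
      refine Matrix.ext fun k l => ?_
      show i (e (e.symm (x k l))) = i (x k l)
      rw [e.apply_symm_apply]
  rw [h1]
  exact hΓ

/-- the two main statements, for the ring `ℤ[w]` -/
def SU (a b : ℤ) : Prop := ∃ M₀ : ℕ, 3 ≤ M₀ ∧ 36 ∣ M₀ ∧ SRF a b M₀ ∧ U2D a b M₀

/-- all groups commensurable with `SL₂(ℤ[w])` -/
theorem rigC_of {a b : ℤ} (hn : b ^ 2 + 4 * a < 0) (hfg : Group.FG (GQ a b)) (hE : E_main)
    (hN : N0_fin) (h5 : Five a b) (hd : BG.HasDat a b) (hU : Uni a b 36) (h : SU a b) :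
    RigC (Qf a b ℤ) := by
  obtain ⟨M₀, h3, hM, hS, hU2⟩ := h
  intro G _ G₁ hG₁ B hB ⟨e⟩
  exact rigid_of hn hfg h3 (rfi_of hE hN h5 hd hU hM) hS hU2 G₁ hG₁ B hB e

end Pool.Agent.F8.NC
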