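import Pool.Agent.Lib.MP_305fdd_al.F8.CG.StmF
import Pool.Agent.Lib.MP_305fdd_al.F8.CG.StmB2
import Pool.Agent.Lib.MP_305fdd_al.F8.CG.StmX

/-!
# MP_305fdd_al, all lattices (project NC, noncongruence subgroups): block 0, the image of `ρ` has finite index

The statements of block F of the project CG for an arbitrary subgroup `D` of finite index of `SL₂(ℤ[w])` (not only for congruence subgroups). The congruence closure of `D` contains `Γ(m₀)` for some `m₀ ≠ 0` (`CCl D m₀`).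
-/

set_option autoImplicit false

namespace Pool.Agent.F8.NC

open Pool.Agent.F8.BG Pool.Agent.MP_305fdd_al Pool.Agent.Lib.MP_305fdd_al Pool.Agent.F8
  Pool.Agent.F8.CG
open scoped QuadraticAlgebra

noncomputable section

/-- The closure of `D` in the congruence topology contains `Γ(m₀)`. -/
def CCl {a b : ℤ} (D : Subgroup (GQ a b)) (m₀ : ℕ) : Prop :=
  ∀ m : ℕ, m ≠ 0 → ∀ x ∈ Gam a b m₀, ∃ y ∈ D, rdq a b m y = rdq a b m x

/-- [NC 0 ccl] the congruence closure of a subgroup of finite index is open. (Uses `X_gnI`.)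

Proof. `N = (D.index)!`, so `x ^ N ∈ D` for all `x` (`Subgroup.pow_mem_of_index_ne_zero_of_dvd`), and `g * eU (N * s) * g⁻¹ = (g * eU s * g⁻¹) ^ N ∈ D` (`eU s ^ n = eU (n * s)`, induction; compare `P_Vtv.lean` or `eU_eq_tv` and `V_tv`). `I = Ideal.span {(N : Qf a b ℤ)}`. Let `x ∈ Gam a b N`, `m ≠ 0`: the entries of `x - 1` are divisible by `N`, so `InI I x`.
`X_gnI` for `I` and `m * N` (`(m * N : Qf a b ℤ) ∈ I`): `x` is in the closure of `Gam a b (m * N)` and the `g * eU s * g⁻¹`, `s ∈ I`. The set of the `x` for which there is `y ∈ D` with `rdq a b m y = rdq a b m x` is a subgroup which contains both (for the first set `y = 1`, `Gam a b (m * N) ≤ Gam a b m`). -/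
def N0_ccl : Prop := ∀ (a b : ℤ), b ^ 2 + 4 * a < 0 → ∀ D : Subgroup (GQ a b), D.FiniteIndex →
  ∃ m₀ : ℕ, m₀ ≠ 0 ∧ CCl D m₀

/-- [NC 0 fg] as `B_fg`, with two towers. (Uses `B_b1`, `B_lin`, `B_fre`.)

Proof. Copy `CG/P_fg.lean` (`fg_key`, `p_fg`): the tower `E` is used for the normality in `H` and in `B_lin`, the tower `D` in `B_b1`. -/
def N0_fg : Prop := ∀ (ι : Type) [Finite ι] (α : MulAut (FreeGroup ι)) (Γ₁ Γ₂ : Subgroup (GR α))
  (E D : ℕ → Subgroup (GR α)), Tow Γ₁ E → Tow Γ₂ D → ∀ H : Subgroup (GR α), H ≤ Γ₁ → H.FG →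
  (∃ x ∈ H, ∃ y ∈ H, x * y ≠ y * x) → ∀ (q : ℕ) [Fact q.Prime] (C : ℕ),
  (∀ j, ∃ n : ℕ, (E j).relIndex H = q ^ n) → (∀ j, (D j).index ≤ C * (E j).relIndex H) →
  (∀ j, b1 (H ⊓ E j : Subgroup (GR α)) ≤ b1 (D j)) →
  (H.comap (iR α)).FG ∧ ∃ x ∈ H, nR α x ≠ 1

/-- [NC 0 fi] as `B_fi`, with two towers. (Uses `N0_fg`, `BG.S_inf`.)

Proof. As `p_fi` in `CG/MainB.lean`. -/
def N0_fi : Prop := ∀ (ι : Type) [Finite ι] (α : MulAut (FreeGroup ι)) (N : ℕ) (w : ι → List ι),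
  1 ≤ N → Pos (α ^ N) w → ∀ (Γ₁ Γ₂ : Subgroup (GR α)) (E D : ℕ → Subgroup (GR α)), Tow Γ₁ E →
  Tow Γ₂ D → ∀ H : Subgroup (GR α), H ≤ Γ₁ → H.FG → (∃ x ∈ H, ∃ y ∈ H, x * y ≠ y * x) →
  ∀ (q : ℕ) [Fact q.Prime] (C : ℕ),
  (∀ j, ∃ n : ℕ, (E j).relIndex H = q ^ n) → (∀ j, (D j).index ≤ C * (E j).relIndex H) →
  (∀ j, b1 (H ⊓ E j : Subgroup (GR α)) ≤ b1 (D j)) →
  (∃ p, iR α p ∈ H ∧ NPer α p) → H.FiniteIndex

/-- [NC 0 tow] the tower of the subgroups `D ∩ Γ(2^j L)`. (Uses `F_emb`.)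

Proof. As `F_tow` (`CG/P_Ftow.lean`): `imE η (D ⊓ Gam a b (2 ^ j * L))` has finite index in `GR α`, because `D ⊓ Gam a b (2 ^ j * L)` has finite index in `GQ a b`, so in `G₀`, and `η.range` has finite index; the family is antitone; normal in `imE η (D ⊓ Gam a b L)` because `Gam a b (2 ^ j * L)` is normal; the intersection is trivial, because it is contained in the
intersection of the tower of `F_tow`. -/
def N0_tow : Prop := ∀ (a b : ℤ) (ι : Type) (α : MulAut (FreeGroup ι)) (M : ℕ)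
  (c g : FreeGroup ι) (G₀ : Subgroup (GQ a b)) (η : G₀ →* GR α), EtaQ α M c g G₀ η →
  ∀ D : Subgroup (GQ a b), D.FiniteIndex → ∀ L : ℕ, 3 ≤ L → M ∣ L →
  Tow (imE η (D ⊓ Gam a b L)) fun j => imE η (D ⊓ Gam a b (2 ^ j * L))

/-- [NC 0 crd] the number of residue classes.

Proof. As `F_crd` (`CG/P_Fcrd.lean`): let `m = L * k`, `R = ρ.range ⊓ Gam a b L`. `(Gam a b m).relIndex R` is the number of the elements `rdq m x`, `x ∈ R`, and `(Gam a b m).relIndex (Gam a b L)` the number of the `rdq m x`, `x ∈ Gam a b L`. By `hρ` at the modulus `m` and `NatBij.range_eq` the set of the `rdq m (ρ l)` is `{C * (rdq m x) * E | x ∈ D}`; those which are one modulo `L`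
correspond to the `rdq m x`, `x ∈ D`, which are one modulo `L`, that is `x ∈ D ⊓ Gam a b L`. The set of these `rdq m x` is the set of all `rdq m x`, `x ∈ Gam a b L`: for `x ∈ Gam a b L ≤ Gam a b m₀` there is `y ∈ D` with `rdq m y = rdq m x` (`CCl`), and `rdq L y = rdq L x = 1` (`L ∣ m`). -/
def N0_crd : Prop := ∀ (a b : ℤ) (D : Subgroup (GQ a b)) (m₀ L : ℕ), CCl D m₀ → m₀ ∣ L →
  L ≠ 0 → ∀ (Λ : Type) [Group Λ] (Φ : NatBij D Λ) (ρ : Λ →* GQ a b), RhoG D.subtype Φ ρ →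
  ∀ k : ℕ, k ≠ 0 → (Gam a b (L * k)).relIndex (ρ.range ⊓ Gam a b L) =
    (Gam a b (L * k)).relIndex (Gam a b L)

/-- [NC 0 cmp] comparison of the first Betti numbers. (Uses `N_b1n`, `N_b1s`, `F_emb`.)

Proof. As `F_cmp` (`CG/P_Fcmp.lean`): `π = (rdq a b m).comp D.subtype`, `K = (Φ.toFun _ π).ker`; `l ∈ K` iff `ρ l ∈ Gam a b m`. `natBij_ker` gives `NatBij π.ker K`, `π.ker ≅ D ⊓ Gam a b m`, finitely generated groups, so `b1 (D ⊓ Gam a b m) = b1 K`. `ρ` maps `K` onto `ρ.range ⊓ Gam a b m`, so `b1 (ρ.range ⊓ Gam a b m) ≤ b1 K`. By `F_emb` the groups in the claim are isomorphic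
to `ρ.range ⊓ Gam a b m` and to `D ⊓ Gam a b m`, via `η`. -/
def N0_cmp : Prop := ∀ (a b : ℤ) (ι : Type) [Finite ι] (α : MulAut (FreeGroup ι)) (M : ℕ)
  (c g : FreeGroup ι) (G₀ : Subgroup (GQ a b)) (η : G₀ →* GR α), EtaQ α M c g G₀ η →
  ∀ (D : Subgroup (GQ a b)) (m : ℕ), 3 ≤ m → M ∣ m → (D ⊓ Gam a b m : Subgroup (GQ a b)).FG →
  ∀ (Λ : Type) [Group Λ] [Group.FG Λ] (Φ : NatBij D Λ) (ρ : Λ →* GQ a b), RhoG D.subtype Φ ρ →
  b1 (imE η (ρ.range ⊓ Gam a b m)) ≤ b1 (imE η (D ⊓ Gam a b m))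

/-- [NC 0 fin] MAIN RESULT of block 0: the image of `ρ` has finite index. (Uses `N0_ccl`, `N0_fi`, `N0_tow`, `N0_crd`, `N0_cmp`, `F_npr`, `F_emb`, `F_two`, `F_tow`.)

Proof. As `F_fin` (`CG/P_Ffin.lean`). `m₀` from `N0_ccl`, `L = 6 * M * m₀`, `Γ₁ = imE η (Gam a b L)`, `E_j = imE η (Gam a b (2^j L))`, `Γ₂ = imE η (D ⊓ Gam a b L)`, `D_j = imE η (D ⊓ Gam a b (2^j L))`, `R = ρ.range ⊓ Gam a b L`, `H = imE η R`, `q = 2`. Apply `N0_fi`; `F_tow`, `N0_tow` give the two towers. `H` is finitely generated: `ρ.range` is finitely generated and `Gam a b L` has finite index.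
`imE η` restricted to the subgroups of `Gam a b L` is injective and compatible with intersections and indices: `H ⊓ E_j = imE η (ρ.range ⊓ Γ(2^j L))`, `E_j.relIndex H = (Gam a b (2^j L)).relIndex R` (a power of two by `F_two`), `= (Gam a b (2^j L)).relIndex (Gam a b L)` (`N0_crd`) `= E_j.relIndex Γ₁`, and `D_j.index = E_j.index * D_j.relIndex E_j`,
`D_j.relIndex E_j = (D ⊓ Γ(2^j L)).relIndex Γ(2^j L) ≤ D.index`, so `D_j.index ≤ (Γ₁.index * D.index) * E_j.relIndex H`. `N0_cmp` for `m = 2^j L`; `D ⊓ Gam a b m` is finitely generated: it is isomorphic to `D_j`, a subgroup of finite index of the finitely generated group `GR α`. The commutator: `D` contains `eU N`, `eV N` for some `N ≠ 0` divisible by `L` (powers of `eU L`, `eV L`), and the trace of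
the commutator is `2 + N^4` (`eUV_tr`); continue as in `P_Ffin.lean` (`Ffin_com`) with the modulus `m = N * (N^4 + 5)` (`RhoG` for the elements `l₁`, `l₂` which correspond to `eU N`, `eV N`; they are in `R` because modulo `L` they are one). By `F_npr` there is an element of `H ∩ F` which is not periodic, and `H` is not abelian. So `H` has finite index in `GR α`,
so `R` has finite index in `Gam a b L`, and `ρ.range` has finite index. -/
def N0_fin : Prop := ∀ (a b : ℤ) (ι : Type) [Finite ι] (α : MulAut (FreeGroup ι)) (N : ℕ)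
  (w : ι → List ι) (M : ℕ) (c g : FreeGroup ι) (G₀ : Subgroup (GQ a b)) (η : G₀ →* GR α),
  BG.Dat α N w M c g G₀ η → ∀ D : Subgroup (GQ a b), D.FiniteIndex →
  ∀ (Λ : Type) [Group Λ] [Group.FG Λ] (Φ : NatBij D Λ) (ρ : Λ →* GQ a b), RhoG D.subtype Φ ρ →
  ρ.range.FiniteIndex

end

end Pool.Agent.F8.NC
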