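import Pool.Agent.Lib.MP_305fdd_al.F8.NC.MainEnd
import Pool.Agent.Lib.MP_305fdd_al.F8.NC.Stm0
import Pool.Agent.Lib.MP_305fdd_al.F8.CG.MainA

/-!
# MP_305fdd_al, all lattices (project NC): the conclusion of block 0
-/

set_option autoImplicit false

namespace Pool.Agent.F8.NC

open Pool.Agent.F8.BG Pool.Agent.MP_305fdd_al Pool.Agent.Lib.MP_305fdd_al Pool.Agent.F8
  Pool.Agent.F8.CG
open scoped QuadraticAlgebra

variable {a b : ℤ}

/-- subgroups of finite index are irreducible -/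
theorem irr_fi (D : Subgroup (GQ a b)) (hfi : D.FiniteIndex) : Irr D.subtype := by
  have hpow : ∀ g : GQ a b, g ^ D.index.factorial ∈ D := fun g =>
    Subgroup.pow_mem_of_index_ne_zero_of_dvd hfi.index_ne_zero g
      fun n h1 h2 => Nat.dvd_factorial h1 h2
  have hn0 : D.index.factorial ≠ 0 := Nat.factorial_ne_zero _
  generalize D.index.factorial = n at hpow hn0
  have hx : (eU (n : Qf a b ℤ) : GQ a b) ∈ D := by
    rw [← eU_pow']
    exact hpow _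
  have hy : (eV (n : Qf a b ℤ) : GQ a b) ∈ D := by
    rw [← eV_pow']
    exact hpow _
  refine ⟨⟨_, hx⟩, ⟨_, hy⟩, ?_⟩
  show tr (eU (n : Qf a b ℤ) * eV (n : Qf a b ℤ) * (eU (n : Qf a b ℤ))⁻¹ *
    (eV (n : Qf a b ℤ))⁻¹) ≠ 2
  rw [eUV_tr]
  intro h
  have h1 := congrArg QuadraticAlgebra.re h
  have h2 : (2 + (n : Qf a b ℤ) ^ 4).re = 2 + (n : ℤ) ^ 4 := by
    rw [← Nat.cast_pow, QuadraticAlgebra.re_add, QuadraticAlgebra.re_natCast]
    push_cast
    rfl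
  rw [h2] at h1
  have h3 : (2 : Qf a b ℤ).re = 2 := rfl
  rw [h3] at h1
  have h4 : 0 < (n : ℤ) ^ 4 := by positivity
  omega

/-- the representation -/
theorem rfi_of (hE : E_main) (hN : N0_fin) (h5 : Five a b) (hd : BG.HasDat a b)
    (hU : Uni a b 36) {M₀ : ℕ} (hM : 36 ∣ M₀) : RFI a b M₀ := by
  intro D hD hfi Λ _ _ Φ
  obtain ⟨ι, _, α, N, w, M, c, g, G₀, η, h⟩ := hd
  obtain ⟨T, hT⟩ := hU D hfi (hD.trans (gam_le hM)) D.subtype
    ⟨1, by
      rw [Matrix.det_one]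
      intro h0
      have h1 : (1 : ℤ) = 0 := congrArg QuadraticAlgebra.re h0
      omega, fun x => by
      rw [Matrix.mul_one, Matrix.one_mul]; rfl⟩ Λ Φ
  obtain ⟨ρ, -, hρ⟩ := hE a b h5 D Λ Φ D.subtype T hT (irr_fi D hfi)
  have hG := rhoG_of_rhoL hρ
  exact ⟨ρ, hG, hN a b ι α N w M c g G₀ η h D hfi Λ Φ ρ hG⟩

end Pool.Agent.F8.NC
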