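import Pool.Agent.Lib.MP_305fdd_al.F8.NC.DefsF
import Pool.Agent.Lib.MP_305fdd_al.F8.NC.MainE

/-!
# MP_305fdd_al, all lattices (project NC): strong rigidity from the main result on lifts

`srig_of`: if `SRF a b M₀` is true and if for every `Λ` in the genus of `D` there is `ρ : Λ → SL₂(ℤ[w])`, locally conjugate to the inclusion of `D`, with an image of finite index, then `D` is strongly rigid.
-/

set_option autoImplicit false

namespace Pool.Agent.F8.NC

open Pool.Agent.F8.BG Pool.Agent.MP_305fdd_al Pool.Agent.Lib.MP_305fdd_al Pool.Agent.F8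
  Pool.Agent.F8.CG
open scoped QuadraticAlgebra

noncomputable section

/-- a pigeonhole principle for the cosets of a subgroup of finite index -/
theorem pig {G : Type} [Group G] (B : Subgroup G) (hB : B.FiniteIndex)
    (P : Subgroup G → G → Prop)
    (hmono : ∀ N N' : Subgroup G, N.Normal → N.FiniteIndex → N ≤ N' → ∀ g, P N g → P N' g)
    (hex : ∀ N : Subgroup G, N.Normal → N.FiniteIndex → ∃ g, P N g) :
    ∃ g₀, ∀ N : Subgroup G, N.Normal → N.FiniteIndex → ∃ d ∈ B, P N (g₀ * d) := by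
  by_contra hcon
  push Not at hcon
  choose Nf hN hF hP using hcon
  have hfin : Finite (G ⧸ B) := Subgroup.finite_quotient_of_finiteIndex
  have hNn : (⨅ c : G ⧸ B, Nf c.out).Normal := Subgroup.normal_iInf_normal fun c => hN c.out
  have hNf : (⨅ c : G ⧸ B, Nf c.out).FiniteIndex :=
    Subgroup.finiteIndex_iInf fun c => hF c.out
  obtain ⟨g, hg⟩ := hex _ hNn hNf
  have h1 : (g : G ⧸ B).out⁻¹ * g ∈ B := QuotientGroup.eq.1 (Quotient.out_eq' _)
  apply hP (g : G ⧸ B).out _ h1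
  rw [mul_inv_cancel_left]
  exact hmono _ _ hNn hNf (iInf_le _ (g : G ⧸ B)) g hg

theorem eq_one_of_hom {Λ : Type} [Group Λ] (hres : Group.ResiduallyFinite Λ) (l : Λ)
    (h : ∀ (Q : Type) [Group Q] [Finite Q] (θ : Λ →* Q), θ l = 1) : l = 1 := by
  rw [Group.residuallyFinite_iff_forall_finiteIndexNormalSubgroup] at hres
  apply hres
  intro H
  have hfin : Finite (Λ ⧸ H.toSubgroup) := Subgroup.finite_quotient_of_finiteIndex
  have h1 := h (Λ ⧸ H.toSubgroup) (QuotientGroup.mk' H.toSubgroup)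
  exact (QuotientGroup.eq_one_iff l).1 h1

/-- STRONG RIGIDITY of `D` -/
theorem srig_of {a b : ℤ} {M₀ : ℕ} (hS : SRF a b M₀) (D : Subgroup (GQ a b))
    (hD : D ≤ Gam a b M₀) (hfi : D.FiniteIndex)
    (hρ : ∀ (Λ : Type) [Group Λ] [Group.FG Λ] (Φ : NatBij D Λ),
      ∃ ρ : Λ →* GQ a b, RhoG D.subtype Φ ρ ∧ ρ.range.FiniteIndex) : SRig D := by
  intro Λ _ _ hres Φ
  obtain ⟨ρ, hρG, hρf⟩ := hρ Λ Φ
  let h : ∀ (N : Subgroup (GQ a b)) [N.Normal] [N.FiniteIndex], D →* GQ a b ⧸ N :=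
    fun N _ _ => Φ.symm.toFun _ ((QuotientGroup.mk' N).comp ρ)
  have hL : Lft D h := by
    constructor
    · intro N N' _ _ _ _ hle x
      have h1 := Φ.symm.nat (QuotientGroup.map N N' (MonoidHom.id _) hle)
        ((QuotientGroup.mk' N).comp ρ)
      have h2 : (QuotientGroup.map N N' (MonoidHom.id _) hle).comp
          ((QuotientGroup.mk' N).comp ρ) = (QuotientGroup.mk' N').comp ρ := rfl
      rw [h2] at h1
      exact (DFunLike.congr_fun h1 x).symm
    · intro m _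
      obtain ⟨C, E, hCE, hEC, hr⟩ := hρG m
      refine ⟨C, E, hCE, hEC, ?_⟩
      intro N _ _ hN x
      have h1 := Φ.symm.nat (QuotientGroup.lift N (rdq a b m) hN)
        ((QuotientGroup.mk' N).comp ρ)
      have h2 : (QuotientGroup.lift N (rdq a b m) hN).comp
          ((QuotientGroup.mk' N).comp ρ) = (rdq a b m).comp ρ := rfl
      rw [h2] at h1
      have h3 : QuotientGroup.lift N (rdq a b m) hN (h N x) =
          Φ.symm.toFun _ ((rdq a b m).comp ρ) x := (DFunLike.congr_fun h1 x).symm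
      rw [h3]
      obtain ⟨l, hl1, hl2⟩ := pair_val Φ.symm ((rdq a b m).comp ρ)
        (Φ.toFun _ ((rdq a b m).comp D.subtype)) x
      rw [← hl1]
      have h4 : Φ.symm.toFun _ (Φ.toFun _ ((rdq a b m).comp D.subtype)) =
        (rdq a b m).comp D.subtype := Φ.left_inv _ _
      rw [h4] at hl2
      show (rdq a b m (ρ l)).val = _
      rw [hr l, hl2]
      rfl
  obtain ⟨A, A', hA, hg⟩ := hS D hD hfi h hL
  let e := cjA A A' hA
  let DA : Subgroup (GQ a b) := D.map e.toMonoidHom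
  have hDA : DA.FiniteIndex := by
    constructor
    have h1 : DA.index = D.index := Subgroup.index_map_equiv D e
    rw [h1]
    exact hfi.index_ne_zero
  obtain ⟨g₀, hg₀⟩ := pig DA hDA (fun N g => ∀ (h1 : N.Normal) (h2 : N.FiniteIndex) (x : D),
    @h N h1 h2 x = QuotientGroup.mk' N (g * e x * g⁻¹)) (by
      intro N N' h1 h2 hle g hP h1' h2' x
      have h3 := hL.cmp N N' hle x
      rw [← h3, hP h1 h2 x]
      rfl) (by
      intro N h1 h2
      obtain ⟨g, hg⟩ := hg N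
      exact ⟨g, fun _ _ x => hg x⟩)
  -- the range of `ρ`
  have hmemDA : ∀ x : D, e x ∈ DA := fun x => ⟨x, x.2, rfl⟩
  have hH : ∀ u : GQ a b, u ∈ ρ.range ↔ g₀⁻¹ * u * g₀ ∈ DA := by
    have hI : (ρ.range ⊓ DA : Subgroup (GQ a b)).FiniteIndex := inferInstance
    have hN1 : ((ρ.range ⊓ DA : Subgroup (GQ a b)).normalCore).FiniteIndex :=
      Subgroup.finiteIndex_normalCore _
    have hle : (ρ.range ⊓ DA : Subgroup (GQ a b)).normalCore ≤ ρ.range ⊓ DA :=
      Subgroup.normalCore_le _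
    have hNn : (ρ.range ⊓ DA : Subgroup (GQ a b)).normalCore.Normal := inferInstance
    generalize (ρ.range ⊓ DA : Subgroup (GQ a b)).normalCore = N₀ at hN1 hle hNn
    obtain ⟨d₀, hd₀, hP⟩ := hg₀ N₀ hNn hN1
    have hrange : (h N₀).range = ((QuotientGroup.mk' N₀).comp ρ).range := Φ.symm.range_eq _
    intro u
    constructor
    · rintro ⟨l, rfl⟩
      have h1 : (QuotientGroup.mk' N₀).comp ρ l ∈ (h N₀).range := by
        rw [hrange]
        exact ⟨l, rfl⟩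
      obtain ⟨x, hx⟩ := h1
      rw [hP hNn hN1 x] at hx
      have h2 : (g₀ * d₀ * e x * (g₀ * d₀)⁻¹)⁻¹ * ρ l ∈ N₀ := QuotientGroup.eq.1 hx
      have h3 : g₀⁻¹ * ((g₀ * d₀ * e x * (g₀ * d₀)⁻¹)⁻¹ * ρ l) * g₀⁻¹⁻¹ ∈ N₀ :=
        hNn.conj_mem _ h2 _
      have h4 : g₀⁻¹ * ρ l * g₀ = d₀ * e x * d₀⁻¹ *
          (g₀⁻¹ * ((g₀ * d₀ * e x * (g₀ * d₀)⁻¹)⁻¹ * ρ l) * g₀⁻¹⁻¹) := by group
      rw [h4]
      exact mul_mem (mul_mem (mul_mem hd₀ (hmemDA x)) (inv_mem hd₀)) (hle h3).2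
    · intro hu
      have h1 : d₀⁻¹ * (g₀⁻¹ * u * g₀) * d₀ ∈ DA := mul_mem (mul_mem (inv_mem hd₀) hu) hd₀
      obtain ⟨x, hx, hx2⟩ := h1
      have hx3 : e x = d₀⁻¹ * (g₀⁻¹ * u * g₀) * d₀ := hx2
      have h2 : h N₀ ⟨x, hx⟩ ∈ ((QuotientGroup.mk' N₀).comp ρ).range := by
        rw [← hrange]
        exact ⟨_, rfl⟩
      obtain ⟨l, hl⟩ := h2
      rw [hP hNn hN1 ⟨x, hx⟩] at hl
      have h3 : (ρ l)⁻¹ * (g₀ * d₀ * e x * (g₀ * d₀)⁻¹) ∈ N₀ := QuotientGroup.eq.1 hl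
      rw [hx3] at h3
      have h4 : u = ρ l * ((ρ l)⁻¹ *
          (g₀ * d₀ * (d₀⁻¹ * (g₀⁻¹ * u * g₀) * d₀) * (g₀ * d₀)⁻¹)) := by group
      rw [h4]
      exact mul_mem ⟨l, rfl⟩ (hle h3).1
  -- the homomorphism to `D`
  have hmem : ∀ l, e.symm (g₀⁻¹ * ρ l * g₀) ∈ D := by
    intro l
    obtain ⟨x, hx, hx2⟩ := (hH (ρ l)).1 ⟨l, rfl⟩
    rw [← hx2]
    show e.symm (e x) ∈ D
    rw [e.symm_apply_apply]
    exact hx
  let ψ : Λ →* D :=
    { toFun := fun l => ⟨e.symm (g₀⁻¹ * ρ l * g₀), hmem l⟩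
      map_one' := Subtype.ext (by simp)
      map_mul' := fun l l' => Subtype.ext (by
        show e.symm _ = e.symm _ * e.symm _
        rw [← map_mul, ρ.map_mul]
        congr 1
        group) }
  have hψ : ∀ l, e (ψ l) = g₀⁻¹ * ρ l * g₀ := fun l => e.apply_symm_apply _
  have key : ∀ (Q : Type) [Group Q] [Finite Q] (f : D →* Q), ∃ y : D, ∀ l : Λ,
      f (ψ l) = f y * Φ.toFun Q f l * (f y)⁻¹ := by
    intro Q _ _ f
    have h0 : f.ker.index ≠ 0 := (Subgroup.finiteIndex_ker f).index_ne_zero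
    let K : Subgroup (GQ a b) :=
      ((f.ker.map D.subtype).map e.toMonoidHom).map (MulAut.conj g₀).toMonoidHom
    have hK : K.FiniteIndex := by
      constructor
      have h1 : K.index = ((f.ker.map D.subtype).map e.toMonoidHom).index :=
        Subgroup.index_map_equiv _ (MulAut.conj g₀)
      have h2 : ((f.ker.map D.subtype).map e.toMonoidHom).index = (f.ker.map D.subtype).index :=
        Subgroup.index_map_equiv _ e
      have h3 : (f.ker.map D.subtype).index = f.ker.index * D.index :=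
        Subgroup.index_map_subtype _
      rw [h1, h2, h3]
      exact mul_ne_zero h0 hfi.index_ne_zero
    have hN1 : K.normalCore.FiniteIndex := Subgroup.finiteIndex_normalCore K
    obtain ⟨d, ⟨y, hy, rfl⟩, hP⟩ := hg₀ K.normalCore inferInstance hN1
    refine ⟨⟨y, hy⟩, ?_⟩
    intro l
    obtain ⟨x, hx1, hx2⟩ := pair_val Φ (h K.normalCore) f l
    have h4 : Φ.toFun _ (h K.normalCore) = (QuotientGroup.mk' K.normalCore).comp ρ :=
      Φ.right_inv _ _
    rw [h4, hP inferInstance hN1 x] at hx1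
    have h5 : (g₀ * e y * e x * (g₀ * e y)⁻¹)⁻¹ * ρ l ∈ K.normalCore := QuotientGroup.eq.1 hx1
    obtain ⟨_, ⟨_, ⟨z, hz, rfl⟩, rfl⟩, h6⟩ := Subgroup.normalCore_le K h5
    have h7 : g₀ * e z * g₀⁻¹ = (g₀ * e y * e x * (g₀ * e y)⁻¹)⁻¹ * ρ l := h6
    have h8 : e (ψ l) = e ((⟨y, hy⟩ : D) * x * (⟨y, hy⟩ : D)⁻¹ * z : D) := by
      rw [hψ]
      have h9 : ρ l = g₀ * e y * e x * (g₀ * e y)⁻¹ * (g₀ * e z * g₀⁻¹) := by
        rw [h7]
        group
      rw [h9]
      show _ = e (y * x * y⁻¹ * z)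
      rw [map_mul, map_mul, map_mul, map_inv]
      group
    have h9 : ψ l = (⟨y, hy⟩ : D) * x * (⟨y, hy⟩ : D)⁻¹ * z := Subtype.ext (e.injective h8)
    rw [h9, map_mul, map_mul, map_mul, map_inv, MonoidHom.mem_ker.1 hz, mul_one, hx2]
  have hinj : Function.Injective ψ := by
    rw [injective_iff_map_eq_one]
    intro l hl
    apply eq_one_of_hom hres
    intro Q _ _ θ
    obtain ⟨y, hy⟩ := key Q (Φ.symm.toFun Q θ)
    have h1 := hy l
    have h2 : Φ.toFun Q (Φ.symm.toFun Q θ) = θ := Φ.right_inv _ _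
    rw [hl, h2, map_one] at h1
    have h3 : θ l = (Φ.symm.toFun Q θ y)⁻¹ * 1 * (Φ.symm.toFun Q θ y) := by
      rw [h1]
      group
    rw [h3]
    group
  have hsurj : Function.Surjective ψ := by
    intro x
    obtain ⟨l, hl⟩ := (hH (g₀ * e x * g₀⁻¹)).2 (by
      have h1 : g₀⁻¹ * (g₀ * e x * g₀⁻¹) * g₀ = e x := by group
      rw [h1]
      exact hmemDA x)
    refine ⟨l, Subtype.ext (e.injective ?_)⟩
    rw [hψ, hl]
    group
  refine ⟨(MulEquiv.ofBijective ψ ⟨hinj, hsurj⟩).symm, ?_⟩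
  intro Q _ _ f
  obtain ⟨y, hy⟩ := key Q f
  refine ⟨(f y)⁻¹, inv_mem ⟨y, rfl⟩, ?_⟩
  intro x
  have h1 := hy ((MulEquiv.ofBijective ψ ⟨hinj, hsurj⟩).symm x)
  have h2 : ψ ((MulEquiv.ofBijective ψ ⟨hinj, hsurj⟩).symm x) = x :=
    (MulEquiv.ofBijective ψ ⟨hinj, hsurj⟩).apply_symm_apply x
  rw [h2] at h1
  rw [h1]
  group

end

end Pool.Agent.F8.NC
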